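import Pool.Agent.Helper14.CV.Defs

/-!
# Analytic statements of project CV

Everywhere `z : ℂ` lies in the upper half plane (`0 < z.im`), `fz f z` is the value of `f`
at `z`, `Fp f` the primitive `∑ (a_m/m) e^{2 π i m z}`.
-/

set_option autoImplicit false

open UpperHalfPlane CongruenceSubgroup
open scoped MatrixGroups

namespace Pool.Agent.Helper14.CV

/-- A1. The series of `Fp f` converges on the upper half plane, `Fp f` is differentiable with
derivative `2 π i f`.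
Proof: `fc f m = O(m)` by `CuspFormClass.qExpansion_isBigO` (with `k = 2`, the width of `Γ₀(N)`
at infinity is `1`: simp lemma `strictWidthInfty_Gamma0`), `fz f z = ∑ fc f m q^m` with
`q = exp (2 π i z)` by `hasSum_qExpansion` (`ModularFormClass.hasSum_qExpansion` or the same in
the namespace), and `fc f 0 = 0`. Differentiate term by term (for instance
`hasSum_deriv_of_summable_norm`, or `hasDerivAt_tsum_of_isPreconnected` on the open set
`{z | t < z.im}`, where the derivative of the m-th term is bounded by `C m exp(-2 π m t)`). -/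
def StA1 : Prop := ∀ (N : ℕ) (_ : NeZero N) (f : CuspForm (G0 N) 2) (z : ℂ), 0 < z.im →
  (Summable fun m : ℕ => fc f m / m * Complex.exp (2 * Real.pi * Complex.I * m * z)) ∧
    (HasSum (fun m : ℕ => fc f m * Complex.exp (2 * Real.pi * Complex.I * m * z)) (fz f z)) ∧
    HasDerivAt (Fp f) (2 * Real.pi * Complex.I * fz f z) z

/-- A1b. `Fp f z → 0` as `Im z → ∞`, uniformly: `‖Fp f z‖ ≤ C exp(-2 π Im z)` for
`1 ≤ Im z`. (Bound the series termwise, `‖fc f m‖ ≤ C m`, `fc f 0 = 0`.) -/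
def StA1b : Prop := ∀ (N : ℕ) (_ : NeZero N) (f : CuspForm (G0 N) 2), ∃ C : ℝ, ∀ z : ℂ,
  1 ≤ z.im → ‖Fp f z‖ ≤ C * Real.exp (-2 * Real.pi * z.im)

/-- A2. The Hecke relation for the primitive: insert the series, use
`∑_{j<l} exp(2 π i m (z+j)/l) = l exp(2 π i (m/l) z)` if `l ∣ m` and `0` otherwise, then both
sides are series in `exp(2 π i m z)` with coefficients `(a_{lm} + l a_{m/l})/m = lam a_m/m`. -/
def StA2 : Prop := ∀ (N : ℕ) (_ : NeZero N) (f : CuspForm (G0 N) 2) (l : ℕ) (lam : ℂ), 0 < l →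
  HeckeEig f l lam → ∀ z : ℂ, 0 < z.im →
  Fp f (l * z) + ∑ j ∈ Finset.range l, Fp f ((z + j) / l) = lam * Fp f z

/-- A2c (converse, up to a constant). If `H z = Fp f (l z) + ∑_{j<l} Fp f ((z+j)/l) - lam Fp f z`
is constant on the upper half plane then `f` is an eigenform of `T_l`. Proof: as in A2, `H` is
the series `∑_{m≥1} (a_{lm} + l a_{m/l} - lam a_m)/m q^m`; uniqueness of power series
coefficients on the punctured unit disc `q = exp(2 π i z)`. -/
def StA2c : Prop := ∀ (N : ℕ) (_ : NeZero N) (f : CuspForm (G0 N) 2) (l : ℕ) (lam k : ℂ), 0 < l →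
  (∀ z : ℂ, 0 < z.im →
    Fp f (l * z) + ∑ j ∈ Finset.range l, Fp f ((z + j) / l) = lam * Fp f z + k) →
  HeckeEig f l lam

/-- A3. Invariance of `f` under `Γ₀(N)` integrates: the derivative of the difference is `0`, and
the upper half plane is connected (or convex). -/
def StA3 : Prop := ∀ (N : ℕ) (_ : NeZero N) (f : CuspForm (G0 N) 2) (a b c d : ℤ),
  a * d - b * c = 1 → (N : ℤ) ∣ c → ∃ k : ℂ, ∀ z : ℂ, 0 < z.im →
  Fp f ((a * z + b) / (c * z + d)) = Fp f z + k

/-- A3W. The same for the Fricke involution with sign `-1`. -/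
def StA3W : Prop := ∀ (N : ℕ) (_ : NeZero N) (f : CuspForm (G0 N) 2),
  (∀ z : ℂ, 0 < z.im → fz f (-1 / (N * z)) = -(N * z ^ 2 * fz f z)) →
  ∃ k : ℂ, ∀ z : ℂ, 0 < z.im → Fp f (-1 / (N * z)) = -Fp f z + k

/-- A3T. The same for the translation by `1/2` (the constant is `0` by A1b). -/
def StA3T : Prop := ∀ (N : ℕ) (_ : NeZero N) (f : CuspForm (G0 N) 2),
  (∀ z : ℂ, 0 < z.im → fz f (z + 1 / 2) = -fz f z) →
  ∀ z : ℂ, 0 < z.im → Fp f (z + 1 / 2) = -Fp f z

/-- A4. Limits at the cusps. Proof: (i) for `γ = (a b; c d)` in `SL₂(ℤ)` the function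
`H(w) = Fp f (γ w)` has derivative `2 π i (f|γ)(w)`, which is bounded by `C exp(-c Im w)` for
large `Im w` (Mathlib: exponential decay of the cusp form `CuspForm.translate f γ`, for instance
`CuspFormClass.exp_decay_atImInfty'`); so `H(x + iy)` is Cauchy for `y → ∞` and the limit `L_γ`
does not depend on `x`. (ii) a general integral matrix with `ad - bc > 0` is `γ (α β; 0 δ)` with
`γ` in `SL₂(ℤ)` and `α, δ > 0`, so `m (x+iy) = γ ((αx + β)/δ + i α y/δ)`: the limit exists and is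
`L_γ`. (iii) it depends only on `(a, c)`: two matrices with the same first column differ by
`γ' = γ (1 k; 0 1)` in (ii) (up to sign), that is, only in `x`. (iv) for `(a, c) = (1, 0)` the
limit is `0` by A1b. -/
def StA4 : Prop := ∀ (N : ℕ) (_ : NeZero N) (f : CuspForm (G0 N) 2),
  ∃ G : ℤ → ℤ → ℂ, IsPot f G ∧ G 1 0 = 0

/-- A5. The central value: `G 0 1 = lim_{y→0} Fp f (iy) = 2 π ∫_0^∞ f(iu) du`, which is
`2 π` times Mathlib's `Λ` at `1` (`CuspForm.Λ_eq_mellin`), and `L = Λ * (2 / Gammaℂ s)`. -/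
def StA5 : Prop := ∀ (N : ℕ) (_ : NeZero N) (f : CuspForm (G0 N) 2) (G : ℤ → ℤ → ℂ),
  IsPot f G → Lan f (1 / 2) = 0 → G 0 1 = G 1 0

/-- A6. Maximum principle: if `G p q + G (-p) q` is constant then `f = 0`. -/
def StA6 : Prop := ∀ (N : ℕ) (_ : NeZero N) (f : CuspForm (G0 N) 2) (G : ℤ → ℤ → ℂ) (k : ℂ),
  IsPot f G → (∀ p q : ℤ, (p ≠ 0 ∨ q ≠ 0) → G p q + G (-p) q = k) → f = 0

/-- A6a. A continuous `Γ₀(N)`-invariant real function `u` on the upper half plane with
`u (γ (x+iy)) → 0` as `y → ∞` uniformly in `x`, for every `γ` in `SL₂(ℤ)`, has a maximum if it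
is positive somewhere. Proof: standard fundamental domain; see the proof of
`ModularGroup.exists_bound_of_subgroup_invariant_of_isBigO`. -/
def StA6a : Prop := ∀ (N : ℕ) (_ : NeZero N) (u : ℍ → ℝ), Continuous u →
  (∀ γ ∈ Gamma0 N, ∀ z : ℍ, u (γ • z) = u z) →
  (∀ γ : SL(2, ℤ), Filter.Tendsto (fun z : ℍ => u (γ • z)) UpperHalfPlane.atImInfty (nhds 0)) →
  (∃ z : ℍ, 0 < u z) → ∃ z₀ : ℍ, ∀ z : ℍ, u z ≤ u z₀

/-- A6b. Uniform limit at the cusps: for `γ = (a b; c d)` in `SL₂(ℤ)` and the potential `G` of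
`f`, `Fp f (γ z) → G a c` as `Im z → ∞`, uniformly in `Re z`: exponential decay of `f|γ`
(`CuspForm.translate f γ`) gives `‖Fp f (γ z) - G a c‖ ≤ C exp(-c Im z)`. -/
def StA6b : Prop := ∀ (N : ℕ) (_ : NeZero N) (f : CuspForm (G0 N) 2) (G : ℤ → ℤ → ℂ),
  IsPot f G → ∀ γ : SL(2, ℤ), Filter.Tendsto (fun z : ℍ => Fp f ((γ • z : ℍ) : ℂ))
    UpperHalfPlane.atImInfty (nhds (G (γ 0 0) (γ 1 0)))

/-- A8. The functional equation with sign `+1` gives `f|W = -f`. Proof: let `g` be the function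
`-(N z^2)^{-1} f(-1/(Nz))`; it is a cusp form of level `N` (the translate of `f` by the matrix
`(0 -1; N 0)`, which normalises `Γ₀(N)`), and the substitution `t → 1/(Nt)` in the Mellin
integral of `t ↦ f(it)` gives `Λ(f, 1 - s) = Λ(g, s)`; so `RootOne f` gives `Λ(f,s) = Λ(g,s)`
for all `s`, hence the Dirichlet series of `f` and `g` agree for large `Re s`, hence the
coefficients agree (`LSeries_eq_iff_of_abscissaOfAbsConv_lt_top` or similar; or Mellin
inversion), so `f = g` on the imaginary axis and everywhere. -/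
def StA8 : Prop := ∀ (N : ℕ) (_ : NeZero N) (f : CuspForm (G0 N) 2), RootOne f →
  ∀ z : ℂ, 0 < z.im → fz f (-1 / (N * z)) = -(N * z ^ 2 * fz f z)

/-- N1. Hecke representatives (pure integer matrices). `l` is a prime not dividing `N`. Every
family of `l + 1` integral matrices of determinant `l`, lower left entry divisible by `N`, no
two of them in the same class `SL₂(ℤ) δ` (that is, `δ P * adjugate (δ P')` is not divisible by
`l` for `P ≠ P'`), equals up to left multiplication by `Γ₀(N)` and a permutation the standard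
family `(1 j; 0 l)`, `j < l`, `(l 0; 0 1)`. Proof: the rows of `δ` modulo `l` span a line of
`(ℤ/l)^2`; if it is spanned by `(1, j)` then `δ = γ (1 j; 0 l)`, if by `(0, 1)` then
`δ = γ (l 0; 0 1)`, with `γ` integral of determinant one and `N` dividing its lower left entry;
distinct classes give distinct lines, so the map is injective, hence a bijection. -/
def StN1 : Prop := ∀ (N l : ℕ), l.Prime → ¬ l ∣ N →
  ∀ δ : Fin (l + 1) → Matrix (Fin 2) (Fin 2) ℤ,
  (∀ P, (δ P).det = l) → (∀ P, (N : ℤ) ∣ δ P 1 0) →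
  (∀ P P', P ≠ P' → ¬ ∀ i j, (l : ℤ) ∣ (δ P * (δ P').adjugate) i j) →
  ∃ π : Equiv.Perm (Fin (l + 1)), ∀ P, ∃ γ : Matrix (Fin 2) (Fin 2) ℤ,
    γ.det = 1 ∧ (N : ℤ) ∣ γ 1 0 ∧
    δ P = γ * (if (π P : ℕ) < l then !![1, ((π P : ℕ) : ℤ); 0, (l : ℤ)] else !![(l : ℤ), 0; 0, 1])

/-- N2. The trace of `f` from level `2M` to level `M`, `M` even, as a cusp form
(`CuspForm.trace (G0 M) f`; `Γ₀(M)` is the union of `Γ₀(2M)` and `Γ₀(2M) (1 0; M 1)`, so up to
inverses the representatives are `1` and `(1 0; M 1)`; or construct the cusp form directly). -/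
def StN2 : Prop := ∀ (M : ℕ) (_ : NeZero M) (f : CuspForm (G0 (2 * M)) 2), 2 ∣ M →
  ∃ g : CuspForm (G0 M) 2, ∀ z : ℂ, 0 < z.im →
    fz g z = fz f z + ((M * z + 1) ^ 2)⁻¹ * fz f (z / (M * z + 1))

/-- N3. The trace commutes with `T_p`: if `f` is an eigenform of `T_p`, so is its trace `g`.
Proof: `Fp g z = Fp f z + Fp f (σ z) + const`, `σ = (1 0; M 1)` (derivatives). For every
representative `δ` of `T_p` the matrix `σ δ σ⁻¹` is integral with lower left entry divisible by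
`2M` (because `p` is odd and `4 ∣ 2M`), so by N1 applied to the family `σ δ_P σ⁻¹` and A3,
`∑_P Fp f (σ δ_P z) = ∑_P Fp f ((σ δ_P σ⁻¹) (σ z)) = ∑_P Fp f (δ_P (σ z)) + const`
`= lam Fp f (σ z) + const` (A2). So `g` satisfies the hypothesis of A2c. -/
def StN3 : Prop := ∀ (M : ℕ) (_ : NeZero M) (f : CuspForm (G0 (2 * M)) 2)
  (g : CuspForm (G0 M) 2) (p : ℕ) (lam : ℂ), 2 ∣ M → p.Prime → ¬ p ∣ 2 * M → HeckeEig f p lam →
  (∀ z : ℂ, 0 < z.im →
    fz g z = fz f z + ((M * z + 1) ^ 2)⁻¹ * fz f (z / (M * z + 1))) →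
  HeckeEig g p lam

/-- N4. A newform of level `2^n`, `n ≥ 2`, with root number `+1` satisfies
`f(z + 1/2) = -f(z)`. Proof: the trace `g` of `f` to level `2^(n-1)` is `0` (N2, N3 and the
field `new`), so `f(σ z) = -(M z + 1)^2 f(z)`, `σ = (1 0; M 1)`, `M = 2^(n-1)`. Conjugate with
`W z = -1/(2M z)`: `W σ W⁻¹ z = z - 1/2`, use `StA8`. (`G0 (2 ^ n)` and `G0 (2 * 2 ^ (n-1))`
must be identified: write `n = m + 1` and use `pow_succ'` with a cast/`subst`.) -/
def StN4 : Prop := ∀ (n : ℕ) (f : CuspForm (G0 (2 ^ n)) 2), 2 ≤ n → IsNewform n f → RootOne f →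
  ∀ z : ℂ, 0 < z.im → fz f (z + 1 / 2) = -fz f z

/-- P1. The potential of `f` is homogeneous: `(ka b; kc d)` and `(a b; c d)` have the same
limit for `k > 0` (replace `x + iy` by `k (x + iy)`), and `(-a b; -c d)` is `(a -b; c -d)`
up to sign. -/
def StP1 : Prop := ∀ (N : ℕ) (_ : NeZero N) (f : CuspForm (G0 N) 2) (G : ℤ → ℤ → ℂ),
  IsPot f G → Homog G

/-- P2. The potential of `f` is a symbol (A3 and passage to the limit). -/
def StP2 : Prop := ∀ (n : ℕ) (f : CuspForm (G0 (2 ^ n)) 2) (G : ℤ → ℤ → ℂ),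
  IsPot f G → Sym 0 n G

/-- P3. Hecke relation for the potential (A2 and passage to the limit). -/
def StP3 : Prop := ∀ (N : ℕ) (_ : NeZero N) (f : CuspForm (G0 N) 2) (G : ℤ → ℤ → ℂ) (l : ℕ)
  (lam : ℂ), IsPot f G → 0 < l → HeckeEig f l lam →
  ∀ p q : ℤ, (p ≠ 0 ∨ q ≠ 0) → Tl l 1 G p q = lam * G p q

/-- P4. Fricke relation for the potential. -/
def StP4 : Prop := ∀ (n : ℕ) (f : CuspForm (G0 (2 ^ n)) 2) (G : ℤ → ℤ → ℂ), IsPot f G →
  (∀ z : ℂ, 0 < z.im → fz f (-1 / (((2 ^ n : ℕ) : ℂ) * z)) =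
    -(((2 ^ n : ℕ) : ℂ) * z ^ 2 * fz f z)) →
  EqC (act 0 (-1) (2 ^ n) 0 G) (-G)

/-- P5. Relation for the translation by `1/2`. -/
def StP5 : Prop := ∀ (N : ℕ) (_ : NeZero N) (f : CuspForm (G0 N) 2) (G : ℤ → ℤ → ℂ), IsPot f G →
  (∀ z : ℂ, 0 < z.im → fz f (z + 1 / 2) = -fz f z) → EqC (act 2 1 0 2 G) (-G)

/-- Core (part B of the project): a new symbol of level `2^n` with `W = -1`, `* = +1` which is
killed by all `T_3^i T_5^j {0, ∞}` is trivial. -/
def StCore : Prop := ∀ (n : ℕ) (G : ℤ → ℤ → ℂ), 5 ≤ n → NewSym n G →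
  (∀ i j : ℕ, ev 1 G i j = 0) → EqC G 0

/-- P6. Assembly: with `G` the potential of the newform `f` (root number `+1`, `L(1/2) = 0`), the
function `G⁺ p q = G p q + G (-p) q` satisfies `NewSym n G⁺` (the `σ`-relation
`EqC (act 1 0 (2^(n-1)) 1 G) (-G)` follows from the relations for `W` and `z + 1/2` since
`σ = W (z ↦ z + 1/2) W⁻¹` up to sign of the translation, and invariance under `z ↦ z + 1`), is an
eigenvector of `Tl 3 1`, `Tl 5 1` away from the origin (`G (p + q) q = G p q` exactly, since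
`Fp f (z+1) = Fp f z`), and `G⁺ 0 1 = G⁺ 1 0` by A5; so all `ev 1 G⁺ i j` vanish, `G⁺` is
constant by the core, and `f = 0` by A6, against `fc f 1 = 1`. -/
def StFinal : Prop := ∀ (n : ℕ) (f : CuspForm (G0 (2 ^ n)) 2), 5 ≤ n → IsNewform n f → RootOne f →
  Lan f (1 / 2) ≠ 0

end Pool.Agent.Helper14.CV
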