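import Pool.Agent.Helper14.CV.Defs

/-!
# Project CV: basic facts on potentials and symbols
-/

set_option autoImplicit false

namespace Pool.Agent.Helper14.CV

variable {R : Type} [AddCommGroup R]

theorem EqC.refl (G : ℤ → ℤ → R) : EqC G G := ⟨0, fun _ _ _ => by simp⟩

theorem EqC.symm {G H : ℤ → ℤ → R} (h : EqC G H) : EqC H G := by
  obtain ⟨c, hc⟩ := h
  exact ⟨-c, fun p q hpq => by rw [hc p q hpq]; abel⟩

theorem EqC.trans {G H K : ℤ → ℤ → R} (h : EqC G H) (h' : EqC H K) : EqC G K := by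
  obtain ⟨c, hc⟩ := h
  obtain ⟨c', hc'⟩ := h'
  exact ⟨c' + c, fun p q hpq => by rw [hc p q hpq, hc' p q hpq]; abel⟩

theorem EqC.add {G H G' H' : ℤ → ℤ → R} (h : EqC G H) (h' : EqC G' H') :
    EqC (G + G') (H + H') := by
  obtain ⟨c, hc⟩ := h
  obtain ⟨c', hc'⟩ := h'
  exact ⟨c + c', fun p q hpq => by
    simp only [Pi.add_apply]; rw [hc p q hpq, hc' p q hpq]; abel⟩

theorem EqC.neg {G H : ℤ → ℤ → R} (h : EqC G H) : EqC (-G) (-H) := by
  obtain ⟨c, hc⟩ := h
  exact ⟨-c, fun p q hpq => by simp only [Pi.neg_apply]; rw [hc p q hpq]; abel⟩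

theorem EqC.sub {G H G' H' : ℤ → ℤ → R} (h : EqC G H) (h' : EqC G' H') :
    EqC (G - G') (H - H') := by
  simpa only [sub_eq_add_neg] using h.add h'.neg

theorem EqC.smul {S : Type} [Monoid S] [DistribMulAction S R] (s : S) {G H : ℤ → ℤ → R}
    (h : EqC G H) : EqC (s • G) (s • H) := by
  obtain ⟨c, hc⟩ := h
  exact ⟨s • c, fun p q hpq => by simp only [Pi.smul_apply]; rw [hc p q hpq, smul_add]⟩

theorem EqC.of_eq {G H : ℤ → ℤ → R} (h : ∀ p q : ℤ, (p ≠ 0 ∨ q ≠ 0) → G p q = H p q) :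
    EqC G H := ⟨0, fun p q hpq => by rw [h p q hpq, add_zero]⟩

/-- The difference of two values only depends on the class modulo constants. -/
theorem EqC.diff {G H : ℤ → ℤ → R} (h : EqC G H) {p q p' q' : ℤ} (h1 : p ≠ 0 ∨ q ≠ 0)
    (h2 : p' ≠ 0 ∨ q' ≠ 0) : G p q - G p' q' = H p q - H p' q' := by
  obtain ⟨c, hc⟩ := h
  rw [hc p q h1, hc p' q' h2]; abel

/-- An integral matrix with nonzero determinant maps nonzero vectors to nonzero vectors. -/
theorem ne_zero_of_det {a b c d : ℤ} (h : a * d - b * c ≠ 0) {p q : ℤ} (hpq : p ≠ 0 ∨ q ≠ 0) :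
    a * p + b * q ≠ 0 ∨ c * p + d * q ≠ 0 := by
  by_contra hcon
  push Not at hcon
  obtain ⟨h1, h2⟩ := hcon
  have e1 : (a * d - b * c) * p = 0 := by linear_combination d * h1 - b * h2
  have e2 : (a * d - b * c) * q = 0 := by linear_combination a * h2 - c * h1
  rcases hpq with hp | hq
  · exact hp ((mul_eq_zero.mp e1).resolve_left h)
  · exact hq ((mul_eq_zero.mp e2).resolve_left h)

theorem act_act {R : Type} (a b c d a' b' c' d' : ℤ) (G : ℤ → ℤ → R) :
    act a b c d (act a' b' c' d' G) =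
      act (a' * a + b' * c) (a' * b + b' * d) (c' * a + d' * c) (c' * b + d' * d) G := by
  funext p q
  unfold act
  congr 1 <;> ring

theorem act_add (a b c d : ℤ) (G H : ℤ → ℤ → R) :
    act a b c d (G + H) = act a b c d G + act a b c d H := rfl

theorem act_neg (a b c d : ℤ) (G : ℤ → ℤ → R) : act a b c d (-G) = -act a b c d G := rfl

theorem act_sub (a b c d : ℤ) (G H : ℤ → ℤ → R) :
    act a b c d (G - H) = act a b c d G - act a b c d H := rfl

theorem act_smul {S : Type} [SMul S R] (s : S) (a b c d : ℤ) (G : ℤ → ℤ → R) :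
    act a b c d (s • G) = s • act a b c d G := rfl

theorem act_one {R : Type} (G : ℤ → ℤ → R) : act 1 0 0 1 G = G := by
  funext p q; simp [act]

theorem EqC.act {G H : ℤ → ℤ → R} (h : EqC G H) {a b c d : ℤ} (hdet : a * d - b * c ≠ 0) :
    EqC (act a b c d G) (act a b c d H) := by
  obtain ⟨k, hk⟩ := h
  exact ⟨k, fun p q hpq => hk _ _ (ne_zero_of_det hdet hpq)⟩

theorem Homog.act {R : Type} {G : ℤ → ℤ → R} (h : Homog G) {a b c d : ℤ}
    (hdet : a * d - b * c ≠ 0) : Homog (act a b c d G) := by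
  intro k p q hk hpq
  have := h k _ _ hk (ne_zero_of_det hdet hpq)
  unfold Pool.Agent.Helper14.CV.act
  rw [← this]
  congr 1 <;> ring

theorem Homog.add {G H : ℤ → ℤ → R} (h : Homog G) (h' : Homog H) : Homog (G + H) := by
  intro k p q hk hpq
  simp only [Pi.add_apply]
  rw [h k p q hk hpq, h' k p q hk hpq]

theorem Homog.neg {G : ℤ → ℤ → R} (h : Homog G) : Homog (-G) := by
  intro k p q hk hpq
  simp only [Pi.neg_apply]
  rw [h k p q hk hpq]

theorem Homog.smul {S : Type} [SMul S R] (s : S) {G : ℤ → ℤ → R} (h : Homog G) :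
    Homog (s • G) := by
  intro k p q hk hpq
  simp only [Pi.smul_apply]
  rw [h k p q hk hpq]

/-- The matrix `(ka kb; kc kd)` acts as `(a b; c d)`. -/
theorem Homog.scale {G : ℤ → ℤ → R} (h : Homog G) {a b c d : ℤ} (k : ℤ) (hk : k ≠ 0)
    (hdet : a * d - b * c ≠ 0) :
    EqC (Pool.Agent.Helper14.CV.act (k * a) (k * b) (k * c) (k * d) G)
      (Pool.Agent.Helper14.CV.act a b c d G) := by
  refine EqC.of_eq fun p q hpq => ?_
  have := h k _ _ hk (ne_zero_of_det hdet hpq)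
  unfold Pool.Agent.Helper14.CV.act
  rw [← this]
  congr 1 <;> ring

theorem Sym.add {r s : ℕ} {G H : ℤ → ℤ → R} (h : Sym r s G) (h' : Sym r s H) :
    Sym r s (G + H) :=
  ⟨h.1.add h'.1, fun a b c d hd hb hc => (h.2 a b c d hd hb hc).add (h'.2 a b c d hd hb hc)⟩

theorem Sym.neg {r s : ℕ} {G : ℤ → ℤ → R} (h : Sym r s G) : Sym r s (-G) :=
  ⟨h.1.neg, fun a b c d hd hb hc => (h.2 a b c d hd hb hc).neg⟩

theorem Sym.smul {S : Type} [Monoid S] [DistribMulAction S R] (x : S) {r s : ℕ}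
    {G : ℤ → ℤ → R} (h : Sym r s G) : Sym r s (x • G) :=
  ⟨h.1.smul x, fun a b c d hd hb hc => (h.2 a b c d hd hb hc).smul x⟩

/-- Scalar multiples of elements of the group act trivially. -/
theorem Sym.mem {r s : ℕ} {G : ℤ → ℤ → R} (h : Sym r s G) (k a b c d : ℤ) (hk : k ≠ 0)
    (hd : a * d - b * c = 1) (hb : (2 : ℤ) ^ r ∣ b) (hc : (2 : ℤ) ^ s ∣ c) :
    EqC (act (k * a) (k * b) (k * c) (k * d) G) G :=
  (h.1.scale k hk (by rw [hd]; exact one_ne_zero)).trans (h.2 a b c d hd hb hc)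

/-- A symbol composed with a matrix which normalises the group is a symbol. -/
theorem Sym.act {r s r' s' : ℕ} {G : ℤ → ℤ → R} (h : Sym r s G) {x y z w : ℤ}
    (hdet : x * w - y * z ≠ 0)
    (hn : ∀ a b c d : ℤ, a * d - b * c = 1 → (2 : ℤ) ^ r' ∣ b → (2 : ℤ) ^ s' ∣ c →
      ∃ a' b' c' d' : ℤ, a' * d' - b' * c' = 1 ∧ (2 : ℤ) ^ r ∣ b' ∧ (2 : ℤ) ^ s ∣ c' ∧
        x * a + y * c = a' * x + b' * z ∧ x * b + y * d = a' * y + b' * w ∧
        z * a + w * c = c' * x + d' * z ∧ z * b + w * d = c' * y + d' * w) :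
    Sym r' s' (act x y z w G) := by
  refine ⟨h.1.act hdet, fun a b c d hd hb hc => ?_⟩
  obtain ⟨a', b', c', d', hd', hb', hc', e1, e2, e3, e4⟩ := hn a b c d hd hb hc
  rw [act_act, e1, e2, e3, e4, ← act_act]
  exact (h.2 a' b' c' d' hd' hb' hc').act hdet

theorem Tl_add (l : ℕ) (m : ℤ) (G H : ℤ → ℤ → R) : Tl l m (G + H) = Tl l m G + Tl l m H := by
  funext p q
  simp only [Tl, Pi.add_apply, Finset.sum_add_distrib]
  abel

theorem Tl_neg (l : ℕ) (m : ℤ) (G : ℤ → ℤ → R) : Tl l m (-G) = -Tl l m G := by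
  funext p q
  simp only [Tl, Pi.neg_apply, Finset.sum_neg_distrib]
  abel

theorem Tl_smul {S : Type} [Monoid S] [DistribMulAction S R] (s : S) (l : ℕ) (m : ℤ)
    (G : ℤ → ℤ → R) : Tl l m (s • G) = s • Tl l m G := by
  funext p q
  simp only [Tl, Pi.smul_apply, smul_add, Finset.smul_sum]

theorem EqC.Tl {G H : ℤ → ℤ → R} (h : EqC G H) {l : ℕ} (hl : 0 < l) (m : ℤ) :
    EqC (Tl l m G) (Tl l m H) := by
  obtain ⟨k, hk⟩ := h
  have hl' : (l : ℤ) ≠ 0 := by exact_mod_cast hl.ne'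
  refine ⟨k + ∑ _j ∈ Finset.range l, k, fun p q hpq => ?_⟩
  have h1 : (l : ℤ) * p ≠ 0 ∨ q ≠ 0 := by
    rcases hpq with hp | hq
    · exact Or.inl (mul_ne_zero hl' hp)
    · exact Or.inr hq
  have h2 : ∀ j : ℕ, p + m * j * q ≠ 0 ∨ (l : ℤ) * q ≠ 0 := by
    intro j
    by_cases hq : q = 0
    · left
      subst hq
      simpa using hpq
    · exact Or.inr (mul_ne_zero hl' hq)
  simp only [Pool.Agent.Helper14.CV.Tl]
  rw [hk _ _ h1, Finset.sum_congr rfl fun j _ => hk _ _ (h2 j), Finset.sum_add_distrib]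
  abel

theorem Tl_iter_add (l : ℕ) (m : ℤ) (i : ℕ) (G H : ℤ → ℤ → R) :
    (Tl l m)^[i] (G + H) = (Tl l m)^[i] G + (Tl l m)^[i] H := by
  induction i generalizing G H with
  | zero => rfl
  | succ i ih => rw [Function.iterate_succ_apply, Function.iterate_succ_apply,
      Function.iterate_succ_apply, Tl_add, ih]

theorem Tl_iter_neg (l : ℕ) (m : ℤ) (i : ℕ) (G : ℤ → ℤ → R) :
    (Tl l m)^[i] (-G) = -(Tl l m)^[i] G := by
  induction i generalizing G with
  | zero => rfl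
  | succ i ih => rw [Function.iterate_succ_apply, Function.iterate_succ_apply, Tl_neg, ih]

theorem Tl_iter_smul {S : Type} [Monoid S] [DistribMulAction S R] (s : S) (l : ℕ) (m : ℤ)
    (i : ℕ) (G : ℤ → ℤ → R) : (Tl l m)^[i] (s • G) = s • (Tl l m)^[i] G := by
  induction i generalizing G with
  | zero => rfl
  | succ i ih => rw [Function.iterate_succ_apply, Function.iterate_succ_apply, Tl_smul, ih]

theorem EqC.Tl_iter {G H : ℤ → ℤ → R} (h : EqC G H) {l : ℕ} (hl : 0 < l) (m : ℤ) (i : ℕ) :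
    EqC ((Pool.Agent.Helper14.CV.Tl l m)^[i] G) ((Pool.Agent.Helper14.CV.Tl l m)^[i] H) := by
  induction i generalizing G H with
  | zero => exact h
  | succ i ih =>
    rw [Function.iterate_succ_apply, Function.iterate_succ_apply]
    exact ih (h.Tl hl m)

theorem ev_congr (m : ℤ) {G H : ℤ → ℤ → R} (h : EqC G H) (i j : ℕ) : ev m G i j = ev m H i j := by
  have h2 := (h.Tl_iter (l := 5) (by norm_num) m j).Tl_iter (l := 3) (by norm_num) m i
  exact h2.diff (Or.inl one_ne_zero) (Or.inr one_ne_zero)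

theorem ev_add (m : ℤ) (G H : ℤ → ℤ → R) (i j : ℕ) :
    ev m (G + H) i j = ev m G i j + ev m H i j := by
  simp only [ev, Tl_iter_add, Pi.add_apply]
  abel

theorem ev_neg (m : ℤ) (G : ℤ → ℤ → R) (i j : ℕ) : ev m (-G) i j = -ev m G i j := by
  simp only [ev, Tl_iter_neg, Pi.neg_apply]
  abel

theorem ev_smul {S : Type} [Monoid S] [DistribMulAction S R] (s : S) (m : ℤ) (G : ℤ → ℤ → R)
    (i j : ℕ) : ev m (s • G) i j = s • ev m G i j := by
  simp only [ev, Tl_iter_smul, Pi.smul_apply, smul_sub]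

/-- `ev` as a linear map. -/
noncomputable def evL : (ℤ → ℤ → ℂ) →ₗ[ℂ] (ℕ → ℕ → ℂ) where
  toFun G i j := ev 1 G i j
  map_add' G H := by funext i j; exact ev_add 1 G H i j
  map_smul' s G := by funext i j; exact ev_smul s 1 G i j

/-- Symbols of level `2^n` as a subspace. -/
def XS (n : ℕ) : Submodule ℂ (ℤ → ℤ → ℂ) where
  carrier := {G | Sym 0 n G}
  add_mem' h h' := Sym.add h h'
  zero_mem' := ⟨fun _ _ _ _ _ => rfl, fun _ _ _ _ _ _ _ => EqC.refl _⟩
  smul_mem' s _ h := Sym.smul s h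

theorem NewSym.add {n : ℕ} {G H : ℤ → ℤ → ℂ} (h : NewSym n G) (h' : NewSym n H) :
    NewSym n (G + H) := by
  obtain ⟨a1, a2, a3, a4, a5⟩ := h
  obtain ⟨b1, b2, b3, b4, b5⟩ := h'
  refine ⟨a1.add b1, ?_, ?_, ?_, a5.add b5⟩
  · rw [neg_add]; exact a2.add b2
  · rw [neg_add]; exact a3.add b3
  · rw [neg_add]; exact a4.add b4

theorem NewSym.smul {n : ℕ} (s : ℂ) {G : ℤ → ℤ → ℂ} (h : NewSym n G) : NewSym n (s • G) := by
  obtain ⟨a1, a2, a3, a4, a5⟩ := h
  refine ⟨a1.smul s, ?_, ?_, ?_, a5.smul s⟩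
  · rw [← smul_neg]; exact a2.smul s
  · rw [← smul_neg]; exact a3.smul s
  · rw [← smul_neg]; exact a4.smul s

/-- New symbols of level `2^n` (`W = -1`, `* = +1`) as a subspace. -/
def NS (n : ℕ) : Submodule ℂ (ℤ → ℤ → ℂ) where
  carrier := {G | NewSym n G}
  add_mem' h h' := NewSym.add h h'
  zero_mem' := by
    refine ⟨⟨fun _ _ _ _ _ => rfl, fun _ _ _ _ _ _ _ => EqC.refl _⟩, ?_, ?_, ?_, EqC.refl _⟩ <;>
    · rw [neg_zero]; exact EqC.refl _
  smul_mem' s _ h := NewSym.smul s h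

end Pool.Agent.Helper14.CV
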