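import Mathlib

/-!
# Nonvanishing of central values for newforms of weight 2 and level 2^n: definitions

Part 1 defines newforms, root numbers and central values, part 2 the combinatorial objects of
the proof: cusps are nonzero integer vectors `(p, q)` (the cusp `p/q`), symbols are potentials
`G : ℤ → ℤ → R` (the symbol of the path from the cusp `v` to the cusp `w` is `G w - G v`).
-/

set_option autoImplicit false

open UpperHalfPlane CongruenceSubgroup
open scoped MatrixGroups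

namespace Pool.Agent.Helper14.CV

/-! ### Part 1: modular forms -/

/-- `Γ₀(N)` as a subgroup of `GL₂(ℝ)`. -/
abbrev G0 (N : ℕ) : Subgroup (GL (Fin 2) ℝ) := (Gamma0 N : Subgroup (GL (Fin 2) ℝ))

/-- The Fourier coefficient `a_m(f)`, where `f(z) = ∑ a_m(f) e^{2 π i m z}`. -/
noncomputable def fc {N : ℕ} (f : CuspForm (G0 N) 2) (m : ℕ) : ℂ :=
  (UpperHalfPlane.qExpansion (1 : ℝ) (f : ℍ → ℂ)).coeff m

/-- `f` is an eigenform of the Hecke operator `T_p` of weight `2` (`p` not dividing the level)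
with eigenvalue `lam`: `T_p` maps `∑ a_m q^m` to `∑ (a_{pm} + p a_{m/p}) q^m`. -/
def HeckeEig {N : ℕ} (f : CuspForm (G0 N) 2) (p : ℕ) (lam : ℂ) : Prop :=
  ∀ m : ℕ, fc f (p * m) + (if p ∣ m then (p : ℂ) * fc f (m / p) else 0) = lam * fc f m

/-- `f` is a newform of weight `2`, level `2^n` and trivial character: it is a cusp form on
`Γ₀(2^n)` with first coefficient `1`, an eigenform of all Hecke operators `T_p`, `p` odd, and
of `U_2`, and its eigenvalues at the odd primes do not come from the lower level `2^(n-1)`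
(no nonzero cusp form on `Γ₀(2^(n-1))` has the same eigenvalues at all odd primes). -/
structure IsNewform (n : ℕ) (f : CuspForm (G0 (2 ^ n)) 2) : Prop where
  normalised : fc f 1 = 1
  hecke : ∀ p : ℕ, p.Prime → p ≠ 2 → HeckeEig f p (fc f p)
  hecke_two : ∀ m : ℕ, fc f (2 * m) = fc f 2 * fc f m
  new : ∀ g : CuspForm (G0 (2 ^ (n - 1))) 2,
    (∀ p : ℕ, p.Prime → p ≠ 2 → HeckeEig g p (fc f p)) → g = 0

/-- The `L`-function of `f` in the analytic normalisation (centre `1/2`): the entire continuation of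
`∑ a_m(f) m^{-1/2} m^{-s}`. It is Mathlib's `L`-function of the modular form `f` (whose
centre is `1`) at the point `s + 1/2`. -/
noncomputable def Lan {N : ℕ} [NeZero N] (f : CuspForm (G0 N) 2) (s : ℂ) : ℂ :=
  ModularForm.L (k := 2) two_pos f (s + 1 / 2)

/-- The completed function `Λ(s,f) = (√N/2π)^s Γ(s + 1/2) L(s,f)` of a form of level `N`. -/
noncomputable def Lam {N : ℕ} [NeZero N] (f : CuspForm (G0 N) 2) (s : ℂ) : ℂ :=
  ((Real.sqrt N / (2 * Real.pi) : ℝ) : ℂ) ^ s * Complex.Gamma (s + 1 / 2) * Lan f s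

/-- The root number of `f` is `+1`: `Λ(s,f) = Λ(1-s,f)` in the strip `-1/2 < Re s < 3/2`, in
which the factors `Γ(s + 1/2)` and `Γ(3/2 - s)` have no poles (at a pole of `Γ` the value of
Lean's function `Complex.Gamma` is `0`, so the equation cannot be required for all `s`). -/
def RootOne {N : ℕ} [NeZero N] (f : CuspForm (G0 N) 2) : Prop :=
  ∀ s : ℂ, -1 / 2 < s.re → s.re < 3 / 2 → Lam f s = Lam f (1 - s)

/-! ### Part 2: potentials and symbols -/

/-- Homogeneous of degree `0` away from the origin. -/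
def Homog {R : Type} (G : ℤ → ℤ → R) : Prop :=
  ∀ k p q : ℤ, k ≠ 0 → (p ≠ 0 ∨ q ≠ 0) → G (k * p) (k * q) = G p q

/-- Equal up to an additive constant away from the origin. -/
def EqC {R : Type} [AddCommGroup R] (G H : ℤ → ℤ → R) : Prop :=
  ∃ c : R, ∀ p q : ℤ, (p ≠ 0 ∨ q ≠ 0) → G p q = H p q + c

/-- The potential composed with the matrix `(a b; c d)`. -/
def act {R : Type} (a b c d : ℤ) (G : ℤ → ℤ → R) : ℤ → ℤ → R :=
  fun p q => G (a * p + b * q) (c * p + d * q)

/-- Potentials of symbols for the group of all `(a b; c d)` in `SL₂(ℤ)` with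
`2^r ∣ b` and `2^s ∣ c`. -/
def Sym {R : Type} [AddCommGroup R] (r s : ℕ) (G : ℤ → ℤ → R) : Prop :=
  Homog G ∧ ∀ a b c d : ℤ, a * d - b * c = 1 → (2 : ℤ) ^ r ∣ b → (2 : ℤ) ^ s ∣ c →
    EqC (act a b c d G) G

/-- The Hecke operator with representatives `(l 0; 0 1)` and `(1 mj; 0 l)`, `0 ≤ j < l`. -/
def Tl {R : Type} [AddCommGroup R] (l : ℕ) (m : ℤ) (G : ℤ → ℤ → R) : ℤ → ℤ → R :=
  fun p q => G (l * p) q + ∑ j ∈ Finset.range l, G (p + m * j * q) (l * q)

/-- The value of the symbol of `G` at `T_3^i T_5^j {0, ∞}`. -/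
def ev {R : Type} [AddCommGroup R] (m : ℤ) (G : ℤ → ℤ → R) (i j : ℕ) : R :=
  ((Tl 3 m)^[i] ((Tl 5 m)^[j] G)) 1 0 - ((Tl 3 m)^[i] ((Tl 5 m)^[j] G)) 0 1

/-- New symbols of level `2^n` with `W = -1` and `* = +1`. -/
def NewSym (n : ℕ) (G : ℤ → ℤ → ℂ) : Prop :=
  Sym 0 n G ∧ EqC (act 2 1 0 2 G) (-G) ∧ EqC (act 1 0 (2 ^ (n - 1)) 1 G) (-G) ∧
    EqC (act 0 (-1) (2 ^ n) 0 G) (-G) ∧ EqC (act (-1) 0 0 1 G) G

/-- The bound for the dimension of the new symbols of level `2^n` with `W = -1`, `* = +1`. -/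
def dd (n : ℕ) : ℕ :=
  if n ≤ 4 then 0
  else if n % 2 = 0 then 4 ^ (n / 2 - 3)
  else 2 ^ (n / 2 - 2) * (2 ^ (n / 2 - 2) + 1) / 2

/-- `1 + ∑_{m ≤ n} dd m`. -/
def DD (n : ℕ) : ℕ := 1 + ∑ m ∈ Finset.range (n + 1), dd m

/-! ### Part 3: the analytic objects -/

/-- The primitive `∑ (a_m/m) e^{2 π i m z}` of `2 π i f`. -/
noncomputable def Fp {N : ℕ} (f : CuspForm (G0 N) 2) (z : ℂ) : ℂ :=
  ∑' m : ℕ, fc f m / m * Complex.exp (2 * Real.pi * Complex.I * m * z)

/-- The value of `f` at the complex number `z`. -/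
noncomputable def fz {N : ℕ} (f : CuspForm (G0 N) 2) (z : ℂ) : ℂ :=
  f (UpperHalfPlane.ofComplex z)

/-- `G` is the potential of `f`: `G a c` is the limit of the primitive at the cusp `a/c`, along
every path `(a (x+iy) + b)/(c (x+iy) + d)`, `y → ∞`, where `ad - bc > 0`. -/
def IsPot {N : ℕ} (f : CuspForm (G0 N) 2) (G : ℤ → ℤ → ℂ) : Prop :=
  ∀ (a b c d : ℤ), 0 < a * d - b * c → ∀ x : ℝ,
    Filter.Tendsto (fun y : ℝ => Fp f ((a * (x + y * Complex.I) + b) /
      (c * (x + y * Complex.I) + d))) Filter.atTop (nhds (G a c))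

end Pool.Agent.Helper14.CV
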