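import Pool.Agent.Helper14.CV.StD

/-!
# Project CV, module Bb: the binomial basis and the Newton expansion modulo 2
-/

set_option autoImplicit false

namespace Pool.Agent.Helper14.CV

private theorem two_eq (a : ZMod 2) : a + a = 0 := CharTwo.add_self_eq_zero a

/-- One variable: Pascal's rule with wrap around. -/
private theorem cc_succ (r i : ℕ) (hi : i + 1 < 2 ^ r) (x : ZMod (2 ^ r)) :
    (((x + 1).val.choose (i + 1) : ℕ) : ZMod 2) + ((x.val.choose (i + 1) : ℕ) : ZMod 2) =
      ((x.val.choose i : ℕ) : ZMod 2) := by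
  have hne : NeZero (2 ^ r) := ⟨pow_ne_zero _ two_ne_zero⟩
  have h1 : 1 < 2 ^ r := by omega
  have hv1 : ((1 : ZMod (2 ^ r))).val = 1 := by
    rw [ZMod.val_one_eq_one_mod, Nat.mod_eq_of_lt h1]
  have hlt := ZMod.val_lt x
  rcases Nat.lt_or_ge (x.val + 1) (2 ^ r) with h | h
  · have : (x + 1).val = x.val + 1 := by
      rw [ZMod.val_add_of_lt (by rw [hv1]; exact h), hv1]
    rw [this, Nat.choose_succ_succ]
    push_cast
    have := two_eq (((x.val.choose (i + 1) : ℕ) : ZMod 2))
    linear_combination this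
  · have hx : x.val = 2 ^ r - 1 := by omega
    have h0 : (x + 1).val = 0 := by
      rw [ZMod.val_add, hv1, hx]
      have : 2 ^ r - 1 + 1 = 2 ^ r := by omega
      rw [this, Nat.mod_self]
    rw [h0, Nat.choose_eq_zero_of_lt (Nat.succ_pos i), Nat.cast_zero, zero_add]
    have h2 : 2 ∣ (2 ^ r).choose (i + 1) :=
      Nat.prime_two.dvd_choose_pow (Nat.succ_ne_zero i) (by omega)
    have h3 : (2 ^ r).choose (i + 1) = x.val.choose i + x.val.choose (i + 1) := by
      have h4 : 2 ^ r = x.val + 1 := by omega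
      conv_lhs => rw [h4]
      rw [Nat.choose_succ_succ]
    have h5 : ((x.val.choose i + x.val.choose (i + 1) : ℕ) : ZMod 2) = 0 := by
      rw [← h3]
      exact (ZMod.natCast_eq_zero_iff _ _).mpr h2
    push_cast at h5
    have := two_eq (((x.val.choose i : ℕ) : ZMod 2))
    linear_combination h5 - this

private theorem dx_bb (r s i j : ℕ) (hi : i + 1 < 2 ^ r) :
    dx (bb (i + 1) j : Fn (2 ^ r) (2 ^ s)) = bb i j := by
  funext x y
  have := cc_succ r i hi x
  simp only [dx, LinearMap.coe_mk, AddHom.coe_mk, bb]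
  push_cast
  rw [← add_mul, this]

private theorem dy_bb (r s i j : ℕ) (hj : j + 1 < 2 ^ s) :
    dy (bb i (j + 1) : Fn (2 ^ r) (2 ^ s)) = bb i j := by
  funext x y
  have := cc_succ s j hj y
  simp only [dy, LinearMap.coe_mk, AddHom.coe_mk, bb]
  push_cast
  rw [← mul_add, this]

private theorem dx_bb0 (r s j : ℕ) : dx (bb 0 j : Fn (2 ^ r) (2 ^ s)) = 0 := by
  funext x y
  simp only [dx, LinearMap.coe_mk, AddHom.coe_mk, bb, Nat.choose_zero_right]
  exact two_eq _

private theorem dy_bb0 (r s i : ℕ) : dy (bb i 0 : Fn (2 ^ r) (2 ^ s)) = 0 := by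
  funext x y
  simp only [dy, LinearMap.coe_mk, AddHom.coe_mk, bb, Nat.choose_zero_right]
  exact two_eq _

private theorem dxy_comm {q q' : ℕ} :
    (dx * dy : Module.End (ZMod 2) (Fn q q')) = dy * dx := by
  refine LinearMap.ext fun F => ?_
  funext x y
  simp only [Module.End.mul_apply, dx, dy, LinearMap.coe_mk, AddHom.coe_mk]
  ring

private theorem dx_pow_bb (r s : ℕ) (a i j : ℕ) (hi : i < 2 ^ r) :
    ((dx ^ a : Module.End (ZMod 2) (Fn (2 ^ r) (2 ^ s))) (bb i j)) =
      if a ≤ i then bb (i - a) j else 0 := by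
  induction a generalizing i with
  | zero => simp
  | succ a ih =>
    rw [pow_succ, Module.End.mul_apply]
    rcases i with _ | i
    · rw [dx_bb0, map_zero]
      simp
    · rw [dx_bb r s i j hi, ih i (by omega)]
      by_cases h : a ≤ i
      · rw [if_pos h, if_pos (by omega)]
        congr 1
        omega
      · rw [if_neg h, if_neg (by omega)]

private theorem dy_pow_bb (r s : ℕ) (a i j : ℕ) (hj : j < 2 ^ s) :
    ((dy ^ a : Module.End (ZMod 2) (Fn (2 ^ r) (2 ^ s))) (bb i j)) =
      if a ≤ j then bb i (j - a) else 0 := by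
  induction a generalizing j with
  | zero => simp
  | succ a ih =>
    rw [pow_succ, Module.End.mul_apply]
    rcases j with _ | j
    · rw [dy_bb0, map_zero]
      simp
    · rw [dy_bb r s i j hj, ih j (by omega)]
      by_cases h : a ≤ j
      · rw [if_pos h, if_pos (by omega)]
        congr 1
        omega
      · rw [if_neg h, if_neg (by omega)]

private theorem bb_mem (r s i j : ℕ) (hi : i < 2 ^ r) (hj : j < 2 ^ s) :
    (bb i j : Fn (2 ^ r) (2 ^ s)) ∈ Wd ((i : ℤ) + j) := by
  intro a b hab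
  rcases Nat.lt_or_ge j b with h | h
  · rw [Module.End.mul_apply, dy_pow_bb r s b i j hj, if_neg (by omega), map_zero]
  · have hc : Commute (dx : Module.End (ZMod 2) (Fn (2 ^ r) (2 ^ s))) dy := dxy_comm
    rw [(hc.pow_pow a b).eq, Module.End.mul_apply, dx_pow_bb r s a i j hi,
      if_neg (by omega), map_zero]

private theorem shift_x {q q' : ℕ} (n : ℕ) (F : Fn q q') (x : ZMod q) (y : ZMod q') :
    (((dx + 1) ^ n : Module.End (ZMod 2) (Fn q q')) F) x y = F (x + n) y := by
  induction n generalizing F with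
  | zero => simp
  | succ n ih =>
    rw [pow_succ, Module.End.mul_apply, ih]
    simp only [LinearMap.add_apply, Module.End.one_apply, Pi.add_apply, dx, LinearMap.coe_mk,
      AddHom.coe_mk]
    rw [add_assoc, two_eq, add_zero]
    push_cast
    rw [add_assoc]

private theorem shift_y {q q' : ℕ} (n : ℕ) (F : Fn q q') (x : ZMod q) (y : ZMod q') :
    (((dy + 1) ^ n : Module.End (ZMod 2) (Fn q q')) F) x y = F x (y + n) := by
  induction n generalizing F with
  | zero => simp
  | succ n ih =>
    rw [pow_succ, Module.End.mul_apply, ih]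
    simp only [LinearMap.add_apply, Module.End.one_apply, Pi.add_apply, dy, LinearMap.coe_mk,
      AddHom.coe_mk]
    rw [add_assoc, two_eq, add_zero]
    push_cast
    rw [add_assoc]

private theorem expand {V : Type} [AddCommGroup V] [Module (ZMod 2) V]
    (D : Module.End (ZMod 2) V) (n N : ℕ) (h : n < N) :
    (D + 1) ^ n = ∑ i ∈ Finset.range N, (n.choose i : ℕ) • D ^ i := by
  rw [(Commute.one_right D).add_pow]
  have h1 : ∀ i ∈ Finset.range (n + 1), D ^ i * 1 ^ (n - i) * ((n.choose i : ℕ) : Module.End (ZMod 2) V)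
      = (n.choose i : ℕ) • D ^ i := by
    intro i _
    rw [one_pow, mul_one, nsmul_eq_mul, Nat.cast_comm]
  rw [Finset.sum_congr rfl h1]
  refine Finset.sum_subset (fun i hi => ?_) (fun i _ hi => ?_)
  · simp only [Finset.mem_range] at hi ⊢; omega
  · simp only [Finset.mem_range] at hi
    rw [Nat.choose_eq_zero_of_lt (by omega), zero_smul]

private theorem newton (r s : ℕ) (F : Fn (2 ^ r) (2 ^ s)) :
    F = ∑ i ∈ Finset.range (2 ^ r), ∑ j ∈ Finset.range (2 ^ s),
      (((dx ^ i * dy ^ j : Module.End (ZMod 2) (Fn (2 ^ r) (2 ^ s))) F) 0 0) • bb i j := by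
  have hne : NeZero (2 ^ r) := ⟨pow_ne_zero _ two_ne_zero⟩
  have hne' : NeZero (2 ^ s) := ⟨pow_ne_zero _ two_ne_zero⟩
  funext x y
  have h1 : F x y = (((dx + 1) ^ x.val : Module.End (ZMod 2) (Fn (2 ^ r) (2 ^ s)))
      (((dy + 1) ^ y.val : Module.End (ZMod 2) (Fn (2 ^ r) (2 ^ s))) F)) 0 0 := by
    rw [shift_x, shift_y, zero_add, zero_add, ZMod.natCast_zmod_val, ZMod.natCast_zmod_val]
  rw [h1, expand dx x.val (2 ^ r) (ZMod.val_lt x), expand dy y.val (2 ^ s) (ZMod.val_lt y)]
  simp only [LinearMap.sum_apply, map_sum, Finset.sum_apply, Pi.smul_apply,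
    Module.End.mul_apply, bb, smul_eq_mul, nsmul_eq_mul]
  rw [Finset.sum_comm]
  refine Finset.sum_congr rfl fun i _ => ?_
  refine Finset.sum_congr rfl fun j _ => ?_
  rw [Module.End.natCast_apply, Module.End.natCast_apply, map_nsmul, Pi.smul_apply,
    Pi.smul_apply, Pi.smul_apply, Pi.smul_apply, nsmul_eq_mul, nsmul_eq_mul]
  push_cast
  ring

theorem hBb : StBb := by
  intro r s
  exact ⟨fun i j hi hj => bb_mem r s i j hi hj, fun i j hi _ => dx_bb r s i j hi,
    fun i j _ hj => dy_bb r s i j hj, fun j _ => dx_bb0 r s j, fun i _ => dy_bb0 r s i,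
    fun F => newton r s F⟩

end Pool.Agent.Helper14.CV
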