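import Pool.Agent.Helper14.CV.StB

/-!
# Project CV, module Nrm: the normalisers
-/

set_option autoImplicit false

namespace Pool.Agent.Helper14.CV

private theorem odd_entries {a b c d : ℤ} (hd : a * d - b * c = 1) (hc : (4 : ℤ) ∣ c) :
    ∃ e : ℤ, a - d = 2 * e := by
  obtain ⟨k, hk⟩ := hc
  have h1 : Odd (a * d) := ⟨2 * (b * k), by subst hk; linarith⟩
  obtain ⟨h2, h3⟩ := Int.odd_mul.mp h1
  obtain ⟨e, he⟩ := h2.sub_odd h3
  exact ⟨e, by linarith⟩

theorem hNrm : StNrm := by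
  intro n G hn hG
  obtain ⟨m, rfl⟩ : ∃ m, n = m + 2 := ⟨n - 2, by omega⟩
  have e1 : m + 2 - 1 = m + 1 := by omega
  rw [e1]
  have h4 : (4 : ℤ) ∣ 2 ^ (m + 2) := ⟨2 ^ m, by rw [pow_add]; ring⟩
  refine ⟨?_, ?_, ?_, ?_⟩
  · refine hG.act (by simp) ?_
    intro a b c d hd _ hc
    obtain ⟨k, hk⟩ := hc
    refine ⟨d, -k, -(2 ^ (m + 2) * b), a, ?_, by simp, ⟨-b, by ring⟩, ?_, ?_, ?_, ?_⟩
    · subst hk; linear_combination hd
    · subst hk; ring
    · ring
    · ring
    · ring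
  · refine hG.act (by norm_num) ?_
    intro a b c d hd _ hc
    obtain ⟨e, he⟩ := odd_entries hd (h4.trans hc)
    obtain ⟨k, hk⟩ := hc
    have hpow : (2 : ℤ) ^ (m + 2) = 4 * 2 ^ m := by rw [pow_add]; ring
    refine ⟨a + 2 * 2 ^ m * k, b - e - 2 ^ m * k, c, d - 2 * 2 ^ m * k, ?_, by simp,
      ⟨k, hk⟩, ?_, ?_, ?_, ?_⟩
    · rw [hpow] at hk
      have hd' : d = a - 2 * e := by linarith
      subst hk
      subst hd'
      linear_combination hd
    · rw [hpow] at hk; subst hk; ring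
    · have hd' : d = a - 2 * e := by linarith
      subst hd'; ring
    · ring
    · rw [hpow] at hk; subst hk; ring
  · refine hG.act (by norm_num) ?_
    intro a b c d hd _ hc
    obtain ⟨e, he⟩ := odd_entries hd (h4.trans hc)
    obtain ⟨k, hk⟩ := hc
    refine ⟨a - b * 2 ^ (m + 1), b, c + 2 ^ (m + 1) * (a - d) - 2 ^ (m + 1) * 2 ^ (m + 1) * b,
      d + 2 ^ (m + 1) * b, ?_, by simp, ?_, ?_, ?_, ?_, ?_⟩
    · linear_combination hd
    · refine ⟨k + e - 2 ^ m * b, ?_⟩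
      rw [he, hk, pow_add, pow_add]
      ring
    · ring
    · ring
    · ring
    · ring
  · refine hG.act (by norm_num) ?_
    intro a b c d hd _ hc
    exact ⟨a, -b, -c, d, by linarith, by simp, (dvd_neg).mpr hc, by ring, by ring, by ring,
      by ring⟩

end Pool.Agent.Helper14.CV
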