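import Pool.Agent.Helper14.CV.Basic
import Pool.Agent.Helper14.CV.StA

/-!
# Statements of project CV: symbols and the dimension chain

`Basic.lean` has the calculus of `EqC` (equal up to a constant), `act`, `Sym`, `Tl`, `ev`.
-/

set_option autoImplicit false

namespace Pool.Agent.Helper14.CV

/-- FAR. A homogeneous potential which takes the same value at both ends of every edge of the
Farey graph is constant. Proof: for coprime `(p, q)` with `q > 0` show `G p q = G 1 0` by strong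
induction on `q`: for `q = 1` use the matrix `(1 p; 0 1)`; for `q ≥ 2` take `0 < q' < q` with
`p q' - q p' = 1` (`q'` the inverse of `p` modulo `q`) and the matrix `(p p'; q q')`. A general
nonzero vector is a nonzero multiple of a coprime one with `q > 0` or of `(1, 0)`. -/
def StFar : Prop := ∀ (R : Type) (_ : AddCommGroup R) (G : ℤ → ℤ → R), Homog G →
  (∀ a b c d : ℤ, a * d - b * c = 1 → G a c = G b d) → EqC G 0

/-- HK. Hecke sum over any system of representatives (from N1): for `δ P = γ_P * std (π P)` with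
`γ_P` in `Γ₀(2^n)`, `G (δ P v) = G (std (π P) v) + const`; sum over `P`. -/
def StHk : Prop := ∀ (R : Type) (_ : AddCommGroup R) (n l : ℕ) (G : ℤ → ℤ → R), l.Prime → l ≠ 2 →
  Sym 0 n G → ∀ δ : Fin (l + 1) → Matrix (Fin 2) (Fin 2) ℤ,
  (∀ P, (δ P).det = l) → (∀ P, (2 : ℤ) ^ n ∣ δ P 1 0) →
  (∀ P P', P ≠ P' → ¬ ∀ i j, (l : ℤ) ∣ (δ P * (δ P').adjugate) i j) →
  EqC (fun p q => ∑ P, G (δ P 0 0 * p + δ P 0 1 * q) (δ P 1 0 * p + δ P 1 1 * q)) (Tl l 1 G)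

/-- HKS. `T_l` preserves symbols: HK for the family `std P * γ`, `γ` in `Γ₀(2^n)` (and
homogeneity, directly). -/
def StHkS : Prop := ∀ (R : Type) (_ : AddCommGroup R) (n l : ℕ) (G : ℤ → ℤ → R), l.Prime → l ≠ 2 →
  Sym 0 n G → Sym 0 n (Tl l 1 G)

/-- HKW. `T_l` commutes with the Fricke involution `W = (0 -1; 2^n 0)`: with
`std P * W = W' ...`, precisely `W * std P = δ P * W` with `δ P = W std P W⁻¹` integral, of
determinant `l`, lower left entry divisible by `2^n`; apply HK to `δ`. -/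
def StHkW : Prop := ∀ (R : Type) (_ : AddCommGroup R) (n l : ℕ) (G : ℤ → ℤ → R), l.Prime → l ≠ 2 →
  Sym 0 n G → EqC (Tl l 1 (act 0 (-1) (2 ^ n) 0 G)) (act 0 (-1) (2 ^ n) 0 (Tl l 1 G))

/-- HKT. `T_l` commutes with `* = (-1 0; 0 1)`: apply HK to `δ P = * std P *⁻¹`
`= (1 -j; 0 l), (l 0; 0 1)`. -/
def StHkT : Prop := ∀ (R : Type) (_ : AddCommGroup R) (n l : ℕ) (G : ℤ → ℤ → R), l.Prime → l ≠ 2 →
  Sym 0 n G → EqC (Tl l 1 (act (-1) 0 0 1 G)) (act (-1) 0 0 1 (Tl l 1 G))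

/-- NRM. The matrices `W`, `t = (2 1; 0 2)`, `σ = (1 0; 2^(n-1) 1)`, `*` normalise `Γ₀(2^n)` (for
`n ≥ 2`): they preserve symbols. Use `Sym.act` of `Basic.lean`. For `t`: `t (a b; c d) t⁻¹ =`
`(a + c/2, b + (d-a)/2 - c/4; c, d - c/2)`. -/
def StNrm : Prop := ∀ (n : ℕ) (G : ℤ → ℤ → ℂ), 2 ≤ n → Sym 0 n G →
  Sym 0 n (act 0 (-1) (2 ^ n) 0 G) ∧ Sym 0 n (act 2 1 0 2 G) ∧
    Sym 0 n (act 1 0 (2 ^ (n - 1)) 1 G) ∧ Sym 0 n (act (-1) 0 0 1 G)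

/-- EVW. `W` exchanges the two ends of `{0, ∞}`: `ev` changes sign. Induction with HKW, HKS:
`(Tl 3)^i (Tl 5)^j (G∘W)` is `((Tl 3)^i (Tl 5)^j G)∘W` up to constants; and
`(H∘W)(1,0) - (H∘W)(0,1) = H(0,2^n) - H(-1,0) = H(0,1) - H(1,0)`. Similarly for `*`. -/
def StEv : Prop := ∀ (n : ℕ) (G : ℤ → ℤ → ℂ), 2 ≤ n → Sym 0 n G → ∀ i j : ℕ,
  ev 1 (act 0 (-1) (2 ^ n) 0 G) i j = -ev 1 G i j ∧ ev 1 (act (-1) 0 0 1 G) i j = ev 1 G i j

/-- LVL. Descent of the level. (a) A symbol of level `2^n` (`n ≥ 2`) invariant (up to a constant)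
under `σ = (1 0; 2^(n-1) 1)` has level `2^(n-1)`: `Γ₀(2^(n-1)) = Γ₀(2^n) ∪ Γ₀(2^n) σ`. (b) If it is
invariant under `t = (2 1; 0 2)` then its composite with `W = (0 -1; 2^n 0)` has level
`2^(n-1)`: `W σ = (unit of Γ₀(2^n), a translation) t^{±1} W` up to scalars, so the composite is
invariant under `σ`. -/
def StLvl : Prop := ∀ (n : ℕ) (G : ℤ → ℤ → ℂ), 2 ≤ n → Sym 0 n G →
  (EqC (act 1 0 (2 ^ (n - 1)) 1 G) G → Sym 0 (n - 1) G) ∧
  (EqC (act 2 1 0 2 G) G → Sym 0 (n - 1) (act 0 (-1) (2 ^ n) 0 G))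

/-- COM. Relations between `t`, `σ`, `W`, `*` on symbols of level `2^n`, `n ≥ 3`, up to constants:
`t t = 1`, `σ σ = 1`, `W W = 1`, `* * = 1`, `t σ = σ t`, `W t = σ W`, `* t = t *`, `* σ = σ *`,
`* W = W *`. Each is an identity of integral matrices up to a scalar and left multiplication by
an element of `Γ₀(2^n)` (`Sym.mem` of `Basic.lean`). Convention: `act M (act M' G) = act (M' M) G`. -/
def StCom : Prop := ∀ (n : ℕ) (G : ℤ → ℤ → ℂ), 3 ≤ n → Sym 0 n G →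
  EqC (act 2 1 0 2 (act 2 1 0 2 G)) G ∧
  EqC (act 1 0 (2 ^ (n - 1)) 1 (act 1 0 (2 ^ (n - 1)) 1 G)) G ∧
  EqC (act 0 (-1) (2 ^ n) 0 (act 0 (-1) (2 ^ n) 0 G)) G ∧
  EqC (act (-1) 0 0 1 (act (-1) 0 0 1 G)) G ∧
  EqC (act 2 1 0 2 (act 1 0 (2 ^ (n - 1)) 1 G)) (act 1 0 (2 ^ (n - 1)) 1 (act 2 1 0 2 G)) ∧
  EqC (act 2 1 0 2 (act 0 (-1) (2 ^ n) 0 G)) (act 0 (-1) (2 ^ n) 0 (act 1 0 (2 ^ (n - 1)) 1 G)) ∧
  EqC (act 1 0 (2 ^ (n - 1)) 1 (act 0 (-1) (2 ^ n) 0 G)) (act 0 (-1) (2 ^ n) 0 (act 2 1 0 2 G)) ∧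
  EqC (act 2 1 0 2 (act (-1) 0 0 1 G)) (act (-1) 0 0 1 (act 2 1 0 2 G)) ∧
  EqC (act 1 0 (2 ^ (n - 1)) 1 (act (-1) 0 0 1 G)) (act (-1) 0 0 1 (act 1 0 (2 ^ (n - 1)) 1 G)) ∧
  EqC (act 0 (-1) (2 ^ n) 0 (act (-1) 0 0 1 G)) (act (-1) 0 0 1 (act 0 (-1) (2 ^ n) 0 G))

/-- B3a. Decomposition: every symbol of level `2^n` (`n ≥ 3`) has the same `ev` as a symbol of
level `2^(n-1)` plus a new symbol with `W = -1`, `* = 1`. Proof: put `A = (G + G∘t)/2`,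
`B = (G - G∘t)/2`, `C = (B + B∘σ)/2`, `E = (B - B∘σ)/2`, `F = (E - E∘W)/2`, `G1 = (F + F∘*)/2`. By
COM `A∘t ≈ A`, `C∘σ ≈ C`, `G1` is a `NewSym`; by LVL `A∘W` and `C` have level `2^(n-1)`; by EVW
`ev A = -ev (A∘W)`, `ev E = ev F`, `ev F = ev G1`. So `G0 = C - A∘W`. -/
def StB3a : Prop := ∀ (n : ℕ) (G : ℤ → ℤ → ℂ), 3 ≤ n → Sym 0 n G →
  ∃ G0 G1 : ℤ → ℤ → ℂ, Sym 0 (n - 1) G0 ∧ NewSym n G1 ∧
    ∀ i j : ℕ, ev 1 G i j = ev 1 G0 i j + ev 1 G1 i j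

/-- B3b. Level 4: all `ev G` are multiples of one vector. Proof: `H = (G - G∘W)/2` has the same
`ev` (EVW) and satisfies `H∘W ≈ -H`. If two such `H, H'` are given, `K = x' H - x H'` with
`x = H(1,0) - H(0,1)`, `x' = H'(1,0) - H'(0,1)` satisfies `K(1,0) = K(0,1)`, `K∘W ≈ -K`; such a
`K` is constant: by FAR it is enough that `K a c = K b d` for `(a b; c d)` in `SL₂(ℤ)`. The
group `Γ₀(4)` has the six cosets with representatives `1, S, ST, ST², ST³, (1 0; 2 1)`, so the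
edges reduce to edges between `∞ = (1,0)`, `0 = (0,1)` and `1/2 = (1,2)` up to `Γ₀(4)`;
`K` is invariant under `(1 1; 0 1)` (fixes `∞`) and `(1 0; 4 1)` (fixes `0`) without constant,
and `K(1,2) = K(1,0)` from `K∘W ≈ -K`. -/
def StB3b : Prop := ∃ e : ℕ → ℕ → ℂ, ∀ G : ℤ → ℤ → ℂ, Sym 0 2 G → ∃ x : ℂ,
  ∀ i j : ℕ, ev 1 G i j = x * e i j

/-- UB. The space of new symbols modulo constants has dimension at most `dd n` (`n ≥ 3`). -/
def StUB : Prop := ∀ n : ℕ, 3 ≤ n → ∃ Θ : NS n →ₗ[ℂ] (Fin (dd n) → ℂ),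
  ∀ G : NS n, Θ G = 0 → EqC (G : ℤ → ℤ → ℂ) 0

/-- LB. The image of `ev` has dimension at least `DD n` (`n ≥ 5`). -/
def StLB : Prop := ∀ n : ℕ, 5 ≤ n → ∃ G : Fin (DD n) → (ℤ → ℤ → ℂ), (∀ k, Sym 0 n (G k)) ∧
  LinearIndependent ℂ (fun k => evL (G k))

/-- CORE. Proof from B3a, B3b, UB, LB: let `V m = (XS m).map evL`. By B3b `finrank (V 2) ≤ 1`, by
B3a `V m ≤ V (m-1) ⊔ (NS m).map evL`, and `evL` restricted to `NS m` factors through `Θ` of UB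
(`ev_congr`: if `Θ G = 0` then `EqC G 0`, so `evL G = 0`), so `finrank ((NS m).map evL) ≤ dd m`, and it
is at most `dd m - 1` if some `G` in `NS m`, not `EqC G 0`, has `evL G = 0`. Summing, `finrank (V n) ≤ DD n`
(everything is finite-dimensional) and `< DD n` if the core fails at `n`: against LB. -/
def StCoreOf : Prop := StB3a → StB3b → StUB → StLB → StCore

end Pool.Agent.Helper14.CV
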