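import Pool.Agent.Helper14.CV.StB

/-!
# Statements of project CV: plane functions and the upper bound for new symbols
-/

set_option autoImplicit false

namespace Pool.Agent.Helper14.CV

/-- The matrix `(a, 2^μ b; 2 c, d)` has determinant one and plane coordinates `(x, y)`, that is
`b = x a` modulo `q` and `c = y d` modulo `q'`. -/
def Pl (μ : ℕ) {q q' : ℕ} (a b c d : ℤ) (x : ZMod q) (y : ZMod q') : Prop :=
  a * d - 2 ^ (μ + 1) * b * c = 1 ∧ (b : ZMod q) = x * a ∧ (c : ZMod q') = y * d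

/-- The entry `Y` of the standard matrix `(1, 2^μ X; 2 Y, 1 + 2^(μ+1) X Y)`, `X = x.val`, with
coordinates `(x, y)`. -/
noncomputable def rY (μ : ℕ) {q q' : ℕ} (x : ZMod q) (y : ZMod q') : ℤ :=
  ((y * (1 - 2 ^ (μ + 1) * ((x.val : ℕ) : ZMod q') * y)⁻¹).val : ℤ)

/-- The value of the symbol of `G` on the path from `g v` to `g u` (`u = (u1,u2)`, `v = (v1,v2)`),
where `g` is the standard matrix with plane coordinates `(x, y)`. -/
noncomputable def edgeF {R : Type} [AddCommGroup R] (μ : ℕ) {q q' : ℕ} (u1 u2 v1 v2 : ℤ)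
    (G : ℤ → ℤ → R) (x : ZMod q) (y : ZMod q') : R :=
  G (u1 + 2 ^ μ * (x.val : ℤ) * u2) (2 * rY μ x y * u1 + (1 + 2 ^ (μ + 1) * (x.val : ℤ) * rY μ x y) * u2)
  - G (v1 + 2 ^ μ * (x.val : ℤ) * v2) (2 * rY μ x y * v1 + (1 + 2 ^ (μ + 1) * (x.val : ℤ) * rY μ x y) * v2)

/-- PLA. The standard matrix has the right coordinates. (`1 - 2^(μ+1) X y` is a unit of
`ZMod (2^s)`; `Y = y (1 - 2^(μ+1) X y)⁻¹` satisfies `Y = y (1 + 2^(μ+1) X Y)`.) -/
def StPlA : Prop := ∀ (μ r s : ℕ) (x : ZMod (2 ^ r)) (y : ZMod (2 ^ s)),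
  Pl μ 1 (x.val : ℤ) (rY μ x y) (1 + 2 ^ (μ + 1) * (x.val : ℤ) * rY μ x y) x y

/-- PLU. Two matrices with the same coordinates differ by an element
`(α β; γ δ)` with `2^(r+μ) ∣ β`, `2^(s+1) ∣ γ` on the left: `(α β; γ δ) = g' g⁻¹`,
`β = 2^μ (a b' - a' b)`, `γ = 2 (c' d - c d')`. -/
def StPlU : Prop := ∀ (μ r s : ℕ) (x : ZMod (2 ^ r)) (y : ZMod (2 ^ s)) (a b c d a' b' c' d' : ℤ),
  Pl μ a b c d x y → Pl μ a' b' c' d' x y → ∃ α β γ δ : ℤ, α * δ - β * γ = 1 ∧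
    (2 : ℤ) ^ (r + μ) ∣ β ∧ (2 : ℤ) ^ (s + 1) ∣ γ ∧
    a' = α * a + β * (2 * c) ∧ 2 ^ μ * b' = α * (2 ^ μ * b) + β * d ∧
    2 * c' = γ * a + δ * (2 * c) ∧ d' = γ * (2 ^ μ * b) + δ * d

/-- EDG. For a symbol `G` the value on the path from `g v` to `g u` depends only on the plane
coordinates of `g`: it is `edgeF`. (PLA, PLU, `Sym`.) -/
def StEdg : Prop := ∀ (R : Type) (_ : AddCommGroup R) (μ r s : ℕ) (G : ℤ → ℤ → R),
  Sym (r + μ) (s + 1) G → ∀ (u1 u2 v1 v2 : ℤ), (u1 ≠ 0 ∨ u2 ≠ 0) → (v1 ≠ 0 ∨ v2 ≠ 0) →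
  ∀ (x : ZMod (2 ^ r)) (y : ZMod (2 ^ s)) (a b c d : ℤ), Pl μ a b c d x y →
  edgeF μ u1 u2 v1 v2 G x y = G (a * u1 + 2 ^ μ * b * u2) (2 * c * u1 + d * u2) -
    G (a * v1 + 2 ^ μ * b * v2) (2 * c * v1 + d * v2)

/-- Balanced new symbols, even exponent `n = 2k`. -/
def BalE (k : ℕ) (G : ℤ → ℤ → ℂ) : Prop :=
  Sym k k G ∧ EqC (act 1 (2 ^ (k - 1)) 0 1 G) (-G) ∧ EqC (act 1 0 (2 ^ (k - 1)) 1 G) (-G) ∧
    EqC (act 0 (-1) 1 0 G) (-G) ∧ EqC (act (-1) 0 0 1 G) G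

/-- Balanced new symbols, odd exponent `n = 2k+1`. -/
def BalO (k : ℕ) (G : ℤ → ℤ → ℂ) : Prop :=
  Sym k (k + 1) G ∧ EqC (act 1 (2 ^ (k - 1)) 0 1 G) (-G) ∧ EqC (act 1 0 (2 ^ k) 1 G) (-G) ∧
    EqC (act 0 (-1) 2 0 G) (-G) ∧ EqC (act (-1) 0 0 1 G) G

/-- BAL. Transport to the balanced form by `(1 0; 0 2^k)` (matrix identities up to scalars, for
instance `(2 1; 0 2) (1 0; 0 2^k) = 2 (1 0; 0 2^k) (1 2^(k-1); 0 1)`). -/
def StBal : Prop := ∀ (k : ℕ) (G : ℤ → ℤ → ℂ), 1 ≤ k →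
  (NewSym (2 * k) G → BalE k (act 1 0 0 (2 ^ k) G)) ∧
  (NewSym (2 * k + 1) G → BalO k (act 1 0 0 (2 ^ k) G)) ∧
  (Homog G → EqC (act 1 0 0 (2 ^ k) G) 0 → EqC G 0)

/-- Functions `F` on `(ZMod (2^(k-1)))²`, antiperiodic with period `2^(k-2)` in both variables, with
`F(-y,-x) = F(x,y)` and `F(-x,-y) = -F(x,y)`. -/
def antiE (k : ℕ) : Submodule ℂ (ZMod (2 ^ (k - 1)) → ZMod (2 ^ (k - 1)) → ℂ) where
  carrier := {F | ∀ x y, F (x + 2 ^ (k - 2)) y = -F x y ∧ F x (y + 2 ^ (k - 2)) = -F x y ∧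
    F (-y) (-x) = F x y ∧ F (-x) (-y) = -F x y}
  add_mem' := by
    intro F F' h h' x y
    obtain ⟨h1, h2, h3, h4⟩ := h x y
    obtain ⟨g1, g2, g3, g4⟩ := h' x y
    simp only [Pi.add_apply, h1, h2, h3, h4, g1, g2, g3, g4]
    refine ⟨by ring, by ring, trivial, by ring⟩
  zero_mem' := by intro x y; simp
  smul_mem' := by
    intro c F h x y
    obtain ⟨h1, h2, h3, h4⟩ := h x y
    simp only [Pi.smul_apply, h1, h2, h3, h4, smul_eq_mul]
    refine ⟨by ring, by ring, trivial, by ring⟩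

/-- E1. Even exponent, `k ≥ 2`: `Ξ = edgeF 1 1 1 (-1) 1 G` (path from `g(-1)` to `g(1)`) lies in `antiE k`,
and if it vanishes then `G` is constant.
Proof. Let `g` have coordinates `(x, y)`. `t' g`, `t' = (1 2^(k-1); 0 1)`, has coordinates
`(x + 2^(k-2), y)`, `(1 0; 2^(k-1) 1) g` has `(x, y + 2^(k-2))`; `S g S⁻¹`, `S = (0 -1; 1 0)`, has
`(-y, -x)` and maps `(1,1)`, `(-1,1)` to `S g (1,-1)`, `S g (1,1)`; `* g *` has `(-x, -y)`: four relations.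
Injectivity: let `Φ(g) = G(g∞) - G(g1)`; then `Ξ(g) = Φ(g A⁻¹) - Φ(g)`, `A = (1 2; 0 1)`, so if `Ξ = 0`, then
`Φ(g A^m) = Φ(g)` for all `m`; for `m = 2^(k-2)` the coordinates of `g A^m` are `(x + 2^(k-2), y)`,
so `Φ(g A^m) = -Φ(g)`, `Φ = 0`. The same with `B = (1 0; 2 1)`, `Φ'(g) = G(g1) - G(g0)`,
`Ξ(g) = Φ'(g) - Φ'(g B⁻¹)`. So `G` has the same value at both ends of every edge `g{∞,1}`, `g{1,0}`,
`g{0,∞}`, `g` in `Γ(2)`; every matrix of `SL₂(ℤ)` is (mod 2 there are six classes) of the form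
`± g ρ` with `ρ{0,∞}` one of these edges up to orientation: apply FAR. -/
def StE1 : Prop := ∀ (k : ℕ) (G : ℤ → ℤ → ℂ), 2 ≤ k → BalE k G →
  (fun (x : ZMod (2 ^ (k - 1))) (y : ZMod (2 ^ (k - 1))) => edgeF 1 1 1 (-1) 1 G x y) ∈ antiE k ∧
  ((∀ (x : ZMod (2 ^ (k - 1))) (y : ZMod (2 ^ (k - 1))), edgeF 1 1 1 (-1) 1 G x y = 0) → EqC G 0)

/-- TRC. Dimension by fixed points: the space of `F : ι → ℂ` fixed by all `w g • (F ∘ g)`, for a finite
set `S` of permutations closed under composition (a group) and a multiplicative sign `w`, has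
dimension `(1/|S|) ∑_{g ∈ S} w g * #{i | g i = i}`: the average is a projection onto it, and its
trace is computed in the standard basis. -/
def StTrc : Prop := ∀ (ι : Type) (_ : Fintype ι) (_ : DecidableEq ι) (H : Type) (_ : Group H)
  (_ : Fintype H) (_ : MulAction H ι) (w : H →* ℤˣ) (V : Submodule ℂ (ι → ℂ)),
  (∀ F : ι → ℂ, F ∈ V ↔ ∀ (g : H) (i : ι), F (g • i) = ((w g : ℤ) : ℂ) * F i) →
  (Module.finrank ℂ V : ℂ) * Fintype.card H =
    ∑ g : H, ((w g : ℤ) : ℂ) * (Finset.univ.filter fun i : ι => g • i = i).card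

/-- DIME. `dim (antiE k) = 4^(k-3)`, `k ≥ 3`. With `Q = 2^(k-2)`: the group of order 16 generated by the
two translations by `Q`, `(x,y) → (y,x)` (sign `-1`) and `(x,y) → (-x,-y)` (sign `-1`) on
`(ZMod (2Q))²`; fixed points with signs: identity `4Q²`; other translations none; `-1` composed
with the four translations: four points each, signs `+ - - +`, sum `0` (`Q` even); swap: `2Q`
points for the translations `(0,0)`, `(Q,Q)`, none for the others, sign `-`: `-4Q`; antiswap the same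
with sign `+`: `4Q`. Total `(4Q² - 4Q + 4Q)/16 = Q²/4`. (Use TRC, or commuting projections and
`LinearMap.IsProj.trace`, or explicit coordinates.) -/
def StDimE : Prop := ∀ k : ℕ, 3 ≤ k → Module.finrank ℂ (antiE k) = 4 ^ (k - 3)

/-- `v(x) = -(1+x)/(1+2x)`. -/
def vv {M : ℕ} (x : ZMod M) : ZMod M := -(1 + x) * (1 + 2 * x)⁻¹

/-- The quadrilateral relation:
`R f (x,y) = f(x+1, y/(1+2y)) + f(x/(1+2x), y+1) - f(x,y) - f(v x, v y)`. -/
def Rq (k : ℕ) : (ZMod (2 ^ k) → ZMod (2 ^ k) → ℂ) →ₗ[ℂ] (ZMod (2 ^ k) → ZMod (2 ^ k) → ℂ) where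
  toFun f x y := f (x + 1) (y * (1 + 2 * y)⁻¹) + f (x * (1 + 2 * x)⁻¹) (y + 1) - f x y
    - f (vv x) (vv y)
  map_add' f g := by funext x y; simp only [Pi.add_apply]; ring
  map_smul' c f := by funext x y; simp only [Pi.smul_apply, smul_eq_mul, RingHom.id_apply]; ring

/-- Functions on `(ZMod (2^k))²`, antiperiodic with period `2^(k-1)`, symmetric and even. -/
def antiO (k : ℕ) : Submodule ℂ (ZMod (2 ^ k) → ZMod (2 ^ k) → ℂ) where
  carrier := {F | ∀ x y, F (x + 2 ^ (k - 1)) y = -F x y ∧ F x (y + 2 ^ (k - 1)) = -F x y ∧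
    F y x = F x y ∧ F (-x) (-y) = F x y}
  add_mem' := by
    intro F F' h h' x y
    obtain ⟨h1, h2, h3, h4⟩ := h x y
    obtain ⟨g1, g2, g3, g4⟩ := h' x y
    simp only [Pi.add_apply, h1, h2, h3, h4, g1, g2, g3, g4]
    refine ⟨by ring, by ring, trivial, trivial⟩
  zero_mem' := by intro x y; simp
  smul_mem' := by
    intro c F h x y
    obtain ⟨h1, h2, h3, h4⟩ := h x y
    simp only [Pi.smul_apply, h1, h2, h3, h4, smul_eq_mul]
    refine ⟨by ring, by ring, trivial, trivial⟩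

/-- The target of the quadrilateral relation. -/
def antiF (k : ℕ) : Submodule ℂ (ZMod (2 ^ k) → ZMod (2 ^ k) → ℂ) where
  carrier := {F | ∀ x y, F (x + 2 ^ (k - 1)) y = -F x y ∧ F x (y + 2 ^ (k - 1)) = -F x y ∧
    F y x = F x y ∧ F (-x - 1) (-y * (1 + 2 * y)⁻¹) = -F x y}
  add_mem' := by
    intro F F' h h' x y
    obtain ⟨h1, h2, h3, h4⟩ := h x y
    obtain ⟨g1, g2, g3, g4⟩ := h' x y
    simp only [Pi.add_apply, h1, h2, h3, h4, g1, g2, g3, g4]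
    refine ⟨by ring, by ring, trivial, by ring⟩
  zero_mem' := by intro x y; simp
  smul_mem' := by
    intro c F h x y
    obtain ⟨h1, h2, h3, h4⟩ := h x y
    simp only [Pi.smul_apply, h1, h2, h3, h4, smul_eq_mul]
    refine ⟨by ring, by ring, trivial, by ring⟩

/-- O1. Odd exponent, `k ≥ 1`: `f = edgeF 0 1 0 0 1 G` (path from `g(0)` to `g(∞)`, `g = (a b; 2c d)` in
`Γ₀(2)`) lies in `antiO k`, satisfies `R f = 0`, and if it vanishes then `G` is constant.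
Proof. `(1 2^(k-1); 0 1) g` has coordinates `(x + 2^(k-1), y)`, `(1 0; 2^k 1) g` has
`(x, y + 2^(k-1))`, `W g W⁻¹`, `W = (0 -1; 2 0)`, has `(-y,-x)` (and `f(W g W⁻¹) = f(g)`), `* g *` has
`(-x,-y)` (`f` equal). Relation: with `T = (1 1; 0 1)`, `V = (1 -1; 2 -1)`:
`f(gT) - f(g) + f(gVT) - f(gV) = 0` since `f(gT) = G(g∞) - G(g1)`, `f(gV) = G(g½) - G(g1)`,
`f(gVT) = G(g½) - G(g0)`; coordinates of `gT`: `(x+1, y/(1+2y))`, `gV`: `(v x, v y)`, `gVT`: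
`(x/(1+2x), y+1)`. If `f = 0` then `G(g∞) = G(g0)` on `Γ₀(2)`, the third class of edges is
`g{-1,0}` and `G(g(-1)) = G(gT⁻¹0) = G(gT⁻¹∞) = G(g∞)`: apply FAR. -/
def StO1 : Prop := ∀ (k : ℕ) (G : ℤ → ℤ → ℂ), 1 ≤ k → BalO k G →
  (fun (x : ZMod (2 ^ k)) (y : ZMod (2 ^ k)) => edgeF 0 1 0 0 1 G x y) ∈ antiO k ∧
  Rq k (fun (x : ZMod (2 ^ k)) (y : ZMod (2 ^ k)) => edgeF 0 1 0 0 1 G x y) = 0 ∧
  ((∀ (x : ZMod (2 ^ k)) (y : ZMod (2 ^ k)), edgeF 0 1 0 0 1 G x y = 0) → EqC G 0)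

/-- RMAP. `R` maps `antiO k` onto `antiF k` (`k ≥ 2`). Proof. Write `(T f)(x,y) = f(x+1, y/(1+2y))`,
`(f∘v)(x,y) = f(v x, v y)`; `v` is an involution and `R f = (T-1)f + ((T-1)f)∘v`. For every `f`:
`R(f∘swap) = (R f)∘swap` and `R(f∘neg) = -(R f)∘ρ`, `ρ(x,y) = (-x-1, -y/(1+2y))` (direct computation
with `1 + 2 v(x) = -1/(1+2x)` etc.), so `R` maps `antiO` into `antiF`. For `F` in `antiF` the symmetry
in `x, y` gives `F(-x/(1+2x), -y-1) = -F(x,y)`, so `F∘v = F`. On antiperiodic functions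
`T^h = -1`, `h = 2^(k-1)`, so `f0 = -(1/4) ∑_{i<h} T^i F` satisfies `(T-1) f0 = F/2` and `R f0 = F`; the
average of `f0`, `f0∘neg`, `f0∘swap`, `f0∘neg∘swap` lies in `antiO k` and is mapped to `F`. -/
def StRmap : Prop := ∀ k : ℕ, 2 ≤ k → (antiO k).map (Rq k) = antiF k

/-- DIMO. `dim (antiO k) = a(a+1)`, `a = 2^(k-2)`, `k ≥ 2`: with `Q = 2^(k-1) = 2a` the fixed point count
as in DIME is `(4Q² + 4Q + 0 + 4Q)/16 = Q(Q+2)/4`. -/
def StDimO : Prop := ∀ k : ℕ, 2 ≤ k →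
  Module.finrank ℂ (antiO k) = 2 ^ (k - 2) * (2 ^ (k - 2) + 1)

/-- DIMF. `dim (antiF k) = a(a+1)/2`, `a = 2^(k-2)`, `k ≥ 2`. The group of order 32 generated by the two
translations by `Q = 2^(k-1)`, the swap (sign `+`) and `ρ(x,y) = (-x-1, -y/(1+2y))` (sign `-`):
modulo translations it is dihedral of order 8 with elements `1`, `v=(v,v)`, `ρ`, `ρ'=(-x/(1+2x),-y-1)`,
swap, `(x,y) → (v y, v x)`, and two of order 4. Only translations `(0,0)` (for `1`), and for the swap and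
`(v y, v x)` the translations `(0,0)`, `(Q,Q)` give fixed points (parity: `v(x) ≡ x+1`, `-x-1 ≡ x+1`
modulo 2): `4Q² + 4Q + 4Q`, divided by 32: `Q(Q+2)/8`. -/
def StDimF : Prop := ∀ k : ℕ, 2 ≤ k →
  2 * Module.finrank ℂ (antiF k) = 2 ^ (k - 2) * (2 ^ (k - 2) + 1)

/-- KERO. `dim {f ∈ antiO k | R f = 0} = a(a+1)/2` (rank-nullity with RMAP, DIMO, DIMF). -/
def StKerO : Prop := ∀ k : ℕ, 2 ≤ k →
  2 * Module.finrank ℂ ↥(antiO k ⊓ LinearMap.ker (Rq k)) = 2 ^ (k - 2) * (2 ^ (k - 2) + 1)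

/-- UB from BAL, E1, O1, DIME, KERO. For `n = 2k ≥ 6` and `n = 2k+1 ≥ 5` compose `G ↦` (balanced form)
`↦ Ξ` or `f` (a linear map into a space of dimension `dd n`) with an isomorphism to `Fin (dd n) → ℂ`.
For `n = 4`: functions in `antiE 2` vanish (`F 0 0 = -F 0 0`, antiperiodic with period `1`), for `n = 3`:
functions in `antiO 1` with `R f = 0` vanish (`R f (0,0) = -4 f(0,0)`). -/
def StUBof : Prop := StBal → StE1 → StO1 → StDimE → StKerO → StUB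

end Pool.Agent.Helper14.CV
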