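import Pool.Agent.Helper14.CV.StC

/-!
# Statements of project CV: lower bound, operator calculus on plane functions modulo 2

The plane is `ZMod q × ZMod q'`, `q = 2^r`, `q' = 2^s`. `A = (1 2; 0 1)` acts on the right by
`(x, y) A^z = (x + z, y/(1 + 4 z y))`, `B = (1 0; 2 1)` by `(x, y) B^z = (x/(1 + 4 z x), y + z)`,
`C = B A⁻¹`. The operator of `g` is `F ↦ (p ↦ F (p g))`; products of operators are compositions,
`opA z * opB w` maps `F` to `p ↦ F (p A^z B^w)`.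
-/

set_option autoImplicit false

namespace Pool.Agent.Helper14.CV

/-- Right translation by `A^z`, general coefficients. -/
def tA {R : Type} (z : ℤ) {q q' : ℕ} (F : ZMod q → ZMod q' → R) : ZMod q → ZMod q' → R :=
  fun x y => F (x + z) (y * (1 + 4 * z * y)⁻¹)

/-- Right translation by `B^z`. -/
def tB {R : Type} (z : ℤ) {q q' : ℕ} (F : ZMod q → ZMod q' → R) : ZMod q → ZMod q' → R :=
  fun x y => F (x * (1 + 4 * z * x)⁻¹) (y + z)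

/-- Relation between `F1` (values on `g{0,∞}`) and `F3` (values on `g{0,1}`):
`F1(pA) - F1(p) = F3(pC⁻¹) - F3(p)`, `C⁻¹ = A B⁻¹`. -/
def Rel {R : Type} [AddCommGroup R] {q q' : ℕ} (F1 F3 : ZMod q → ZMod q' → R) : Prop :=
  ∀ x y, tA 1 F1 x y - F1 x y = tA 1 (tB (-1) F3) x y - F3 x y

/-- REL. The plane functions of a symbol satisfy the relation. With `g` of coordinates `p`:
`F1(pA) - F1(p) = G(g0) - G(g2)` and `F3(pC⁻¹) - F3(p) = (G(g1) - G(g2)) - (G(g1) - G(g0))`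
because `C⁻¹ = (3 -2; 2 -1)` up to sign fixes `1` and maps `0` to `2`. `g A` has coordinates
`p A`, `g B⁻¹` has coordinates `p B⁻¹`. -/
def StRel : Prop := ∀ (R : Type) (_ : AddCommGroup R) (r s : ℕ) (G : ℤ → ℤ → R),
  Sym (r + 1) (s + 1) G →
  Rel (fun (x : ZMod (2 ^ r)) (y : ZMod (2 ^ s)) => edgeF 1 1 0 0 1 G x y)
    (fun (x : ZMod (2 ^ r)) (y : ZMod (2 ^ s)) => edgeF 1 1 1 0 1 G x y)

/-- FEX. Farey existence: a function on the oriented Farey edges (`E a b c d` is the value of the path from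
`b/d` to `a/c`) which is invariant under the sign, changes sign with the orientation and is
additive on triangles comes from a homogeneous potential. Proof. Put `G(1,0) = 0`,
`G(p,1) = -E 1 p 0 1`, and for coprime `(p,q)`, `q ≥ 2`, `G(p,q) = G(p',q') + E p p' q q'` where
`0 < q' < q`, `p q' - q p' = 1` (`(p',q')` is the left parent); extend by homogeneity. By the triangle
relation for `(p-p', p'; q-q', q')` the right parent `(p-p', q-q')` gives the same value. Every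
edge with `q, q' ≥ 0` is (up to orientation) a vertex with one of its two parents, or both
denominators are `1`, or one is `0`. -/
def StFex : Prop := ∀ (R : Type) (_ : AddCommGroup R) (E : ℤ → ℤ → ℤ → ℤ → R),
  (∀ a b c d : ℤ, a * d - b * c = 1 → E (-a) (-b) (-c) (-d) = E a b c d ∧
    E b (-a) d (-c) = -E a b c d ∧
    E a b c d = E a (a + b) c (c + d) + E (a + b) b (c + d) d) →
  ∃ G : ℤ → ℤ → R, Homog G ∧ ∀ a b c d : ℤ, a * d - b * c = 1 → G a c - G b d = E a b c d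

/-- EX. Every solution of the relation comes from a symbol. Proof. Define `E g` for `g` in `SL₂(ℤ)` by
the class of `g` modulo 2: `g ≡ 1`: `F1(p(g))`; `g ≡ T = (1 1; 0 1)`: `F1(p(h)) - F3(p(h))`,
`h = g T⁻¹`; `g ≡ (1 0; 1 1)`: `F3(p(h))`, `h = g (1 0; -1 1)`; the other three classes: `-E (g S)`,
`g S = (b -a; d -c)`. Here `p(h) = (b/(2a), c/(2d))` for `h = (a b; c d) ≡ 1`. Triangle relation: by
the symmetries two cases are enough, `g ≡ 1` (trivial) and `g = h S⁻¹`, where it says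
`F1(p) = F3(p B⁻¹) + F1(p A⁻¹) - F3(p A⁻¹)`, that is `Rel` at `p A⁻¹`. Apply FEX. `E` is invariant under
left multiplication by the group of the symbol (coordinates do not change), so by FAR `G∘γ ≈ G`. -/
def StEx : Prop := ∀ (R : Type) (_ : AddCommGroup R) (r s : ℕ)
  (F1 F3 : ZMod (2 ^ r) → ZMod (2 ^ s) → R), Rel F1 F3 →
  ∃ G : ℤ → ℤ → R, Sym (r + 1) (s + 1) G ∧
    (∀ (x : ZMod (2 ^ r)) (y : ZMod (2 ^ s)), edgeF 1 1 0 0 1 G x y = F1 x y) ∧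
    (∀ (x : ZMod (2 ^ r)) (y : ZMod (2 ^ s)), edgeF 1 1 1 0 1 G x y = F3 x y)

/-- UNI. A symbol with `F1 = F3 = 0` is constant (EDG, FAR; the six classes modulo 2 as in EX). -/
def StUni : Prop := ∀ (R : Type) (_ : AddCommGroup R) (r s : ℕ) (G : ℤ → ℤ → R),
  Sym (r + 1) (s + 1) G →
  (∀ (x : ZMod (2 ^ r)) (y : ZMod (2 ^ s)), edgeF 1 1 0 0 1 G x y = 0) →
  (∀ (x : ZMod (2 ^ r)) (y : ZMod (2 ^ s)), edgeF 1 1 1 0 1 G x y = 0) → EqC G 0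

/-- HKB. Hecke sums for balanced levels `(r, s)` (from HK by `G0(p,q) = G(2^r p, q)`, which is a symbol
of level `(0, r+s)`, `G(p,q) = G0(p, 2^r q)`; `δ` becomes `(a, b/2^r; 2^r c, d)`), and `T_l` preserves
symbols (from HKS in the same way). -/
def StHkB : Prop := ∀ (R : Type) (_ : AddCommGroup R) (r s l : ℕ) (G : ℤ → ℤ → R), l.Prime →
  l ≠ 2 → Sym r s G → Sym r s (Tl l (2 ^ r) G) ∧
  ∀ δ : Fin (l + 1) → Matrix (Fin 2) (Fin 2) ℤ,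
  (∀ P, (δ P).det = l) → (∀ P, (2 : ℤ) ^ r ∣ δ P 0 1) → (∀ P, (2 : ℤ) ^ s ∣ δ P 1 0) →
  (∀ P P', P ≠ P' → ¬ ∀ i j, (l : ℤ) ∣ (δ P * (δ P').adjugate) i j) →
  EqC (fun p q => ∑ P, G (δ P 0 0 * p + δ P 0 1 * q) (δ P 1 0 * p + δ P 1 1 * q))
    (Tl l (2 ^ r) G)

/-- HKF. Hecke formula on the plane. `J` is a complete system of residues modulo `l`. For `g` with
coordinates `(x,y)` use in HKB the family `δ = g_j (1 2j; 0 l) g⁻¹`, `j ∈ J`, and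
`g_∞ (l 0; 0 1) g⁻¹`, where `g_j` is the standard matrix with coordinates
`((x-j)/l, l y/(1-4jy))` and `g_∞` the one with coordinates `(l x, y/l)` (both
`g_j (1 2j; 0 l)` and `g_∞ (l 0; 0 1)` have plane coordinates `(x, y)`, that is
`b ≡ 2 x a`, `c ≡ 2 y d`, so `δ` satisfies the congruences). -/
def StHkF : Prop := ∀ (R : Type) (_ : AddCommGroup R) (r s l : ℕ) (G : ℤ → ℤ → R) (J : Finset ℤ),
  l.Prime → l ≠ 2 → Sym (r + 1) (s + 1) G → J.card = l →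
  (∀ j ∈ J, ∀ j' ∈ J, (l : ℤ) ∣ j - j' → j = j') →
  ∀ (x : ZMod (2 ^ r)) (y : ZMod (2 ^ s)),
  edgeF 1 1 0 0 1 (Tl l (2 ^ (r + 1)) G) x y =
    edgeF 1 1 0 0 1 G ((l : ZMod (2 ^ r)) * x) (y * (l : ZMod (2 ^ s))⁻¹) +
    ∑ j ∈ J, edgeF 1 1 0 (2 * j) l G ((x - ((j : ℤ) : ZMod (2 ^ r))) * (l : ZMod (2 ^ r))⁻¹)
      ((l : ZMod (2 ^ s)) * y * (1 - 4 * ((j : ℤ) : ZMod (2 ^ s)) * y)⁻¹)

/-! ### Operators on functions with values in `ZMod 2` -/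

/-- Plane functions modulo 2. -/
abbrev Fn (q q' : ℕ) : Type := ZMod q → ZMod q' → ZMod 2

/-- Operator of `A^z`. -/
def opA (z : ℤ) {q q' : ℕ} : Module.End (ZMod 2) (Fn q q') where
  toFun F := tA z F
  map_add' _ _ := rfl
  map_smul' _ _ := rfl

/-- Operator of `B^z`. -/
def opB (z : ℤ) {q q' : ℕ} : Module.End (ZMod 2) (Fn q q') where
  toFun F := tB z F
  map_add' _ _ := rfl
  map_smul' _ _ := rfl

/-- Operator of `C = B A⁻¹`. -/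
def opC {q q' : ℕ} : Module.End (ZMod 2) (Fn q q') := opB 1 * opA (-1)

/-- Operator of `C⁻¹ = A B⁻¹`. -/
def opC' {q q' : ℕ} : Module.End (ZMod 2) (Fn q q') := opA 1 * opB (-1)

/-- `F ↦ F (x/l) (l y)`. -/
def opD (l : ℕ) {q q' : ℕ} : Module.End (ZMod 2) (Fn q q') where
  toFun F x y := F (x * (l : ZMod q)⁻¹) ((l : ZMod q') * y)
  map_add' _ _ := rfl
  map_smul' _ _ := rfl

/-- `F ↦ F (l x) (y/l)`. -/
def opE (l : ℕ) {q q' : ℕ} : Module.End (ZMod 2) (Fn q q') where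
  toFun F x y := F ((l : ZMod q) * x) (y * (l : ZMod q')⁻¹)
  map_add' _ _ := rfl
  map_smul' _ _ := rfl

/-- Difference in `x`. -/
def dx {q q' : ℕ} : Module.End (ZMod 2) (Fn q q') where
  toFun F x y := F (x + 1) y + F x y
  map_add' F G := by funext x y; simp only [Pi.add_apply]; ring
  map_smul' c F := by funext x y; simp only [Pi.smul_apply, smul_eq_mul, RingHom.id_apply]; ring

/-- Difference in `y`. -/
def dy {q q' : ℕ} : Module.End (ZMod 2) (Fn q q') where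
  toFun F x y := F x (y + 1) + F x y
  map_add' F G := by funext x y; simp only [Pi.add_apply]; ring
  map_smul' c F := by funext x y; simp only [Pi.smul_apply, smul_eq_mul, RingHom.id_apply]; ring

/-- Functions of degree at most `d` (`0` for `d < 0`). -/
def Wd {q q' : ℕ} (d : ℤ) : Submodule (ZMod 2) (Fn q q') where
  carrier := {F | ∀ i j : ℕ, d < (i : ℤ) + j →
    ((dx ^ i * dy ^ j : Module.End (ZMod 2) (Fn q q')) F) = 0}
  add_mem' h h' := by intro i j hij; rw [map_add, h i j hij, h' i j hij, add_zero]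
  zero_mem' := by intro i j _; exact map_zero _
  smul_mem' c F h := by intro i j hij; rw [map_smul, h i j hij, smul_zero]

/-- The operator lowers degrees by at least `k`. -/
def Low {q q' : ℕ} (O : Module.End (ZMod 2) (Fn q q')) (k : ℤ) : Prop :=
  ∀ (d : ℤ) (F : Fn q q'), F ∈ Wd d → O F ∈ Wd (d - k)

/-- The leading operators of `T_3` and `T_5`. -/
def L3 {q q' : ℕ} : Module.End (ZMod 2) (Fn q q') := dx * dy * (dx + dy)

/-- The leading operator of `T_5`. -/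
def L5 {q q' : ℕ} : Module.End (ZMod 2) (Fn q q') := dx ^ 2 * dy ^ 2

/-- LOW0. `Low` is compatible with sums, products, smaller lowering; `Wd` is increasing; `dx`, `dy`
commute and lower by `1`; every function has finite degree; the identity is `Low 0`. -/
def StLow0 : Prop := ∀ (r s : ℕ),
  (∀ (O O' : Module.End (ZMod 2) (Fn (2 ^ r) (2 ^ s))) (k k' : ℤ), Low O k → Low O' k' →
    Low (O * O') (k + k')) ∧
  (∀ (O O' : Module.End (ZMod 2) (Fn (2 ^ r) (2 ^ s))) (k : ℤ), Low O k → Low O' k →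
    Low (O + O') k) ∧
  (∀ (O : Module.End (ZMod 2) (Fn (2 ^ r) (2 ^ s))) (k k' : ℤ), k' ≤ k → Low O k → Low O k') ∧
  (∀ d d' : ℤ, d ≤ d' → (Wd d : Submodule (ZMod 2) (Fn (2 ^ r) (2 ^ s))) ≤ Wd d') ∧
  Low (1 : Module.End (ZMod 2) (Fn (2 ^ r) (2 ^ s))) 0 ∧
  Low (dx : Module.End (ZMod 2) (Fn (2 ^ r) (2 ^ s))) 1 ∧
  Low (dy : Module.End (ZMod 2) (Fn (2 ^ r) (2 ^ s))) 1 ∧
  (dx * dy : Module.End (ZMod 2) (Fn (2 ^ r) (2 ^ s))) = dy * dx ∧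
  (dx ^ (2 ^ r) : Module.End (ZMod 2) (Fn (2 ^ r) (2 ^ s))) = 0 ∧
  (dy ^ (2 ^ s) : Module.End (ZMod 2) (Fn (2 ^ r) (2 ^ s))) = 0 ∧
  (∀ F : Fn (2 ^ r) (2 ^ s), F ∈ Wd ((2 : ℤ) ^ r + 2 ^ s - 2)) ∧
  (∀ F : Fn (2 ^ r) (2 ^ s), F ∈ Wd 0 → ∀ x y, F x y = F 0 0) ∧
  (∀ F : Fn (2 ^ r) (2 ^ s), F ∈ Wd (-1) → F = 0)

/-- PRD. Product rule: degrees add. `dx (F G) = dx F * (G shifted) + F * dx G`, induction. -/
def StPrd : Prop := ∀ (r s : ℕ) (d e : ℤ) (F G : Fn (2 ^ r) (2 ^ s)), F ∈ Wd d → G ∈ Wd e →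
  (fun x y => F x y * G x y) ∈ (Wd (d + e) : Submodule (ZMod 2) (Fn (2 ^ r) (2 ^ s)))

/-- SUB. Substitutions. Let `t : ZMod (2^s) → ZMod (2^s)` respect all congruences modulo `2^i`, `k ≥ 1`. Then
`F(x, y + 2^k t(y)) - F(x, y)` has degree at most `d - (2^k - 1)` if `F` has degree at most `d`; if
`k = 2` and all values of `t` are odd, at most `d - 4`. Proof. With `Δ = dy` and `u = (t y).val`,
`F(x, y + 2^k t) = (1 + Δ)^(2^k u) F = (1 + Δ^(2^k))^u F = ∑_m (u choose m) (Δ^(2^k m) F)(x, y)`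
(characteristic 2), `m < 2^s`. For `m ≥ 1` let `2^i` be the smallest power of two bigger than `m`, so
`2^i ≤ 2m`; the function `y ↦ (u(y) choose m)` modulo 2 only depends on `u(y)` modulo `2^i`
(Lucas / Vandermonde), so it has period `2^i` in `y`, so `Δ^(2^i)` kills it and its degree is at most
`2^i - 1 ≤ 2m - 1`. By PRD the `m`-th term has degree at most `d - 2^k m + 2m - 1`, and
`2^k m - 2m + 1 ≥ 2^k - 1`. If `k = 2` and `t` is odd the term `m = 1` is `Δ^4 F`, degree `d - 4`, the others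
lower by `2m + 1 ≥ 5`. The same in the variable `x`. -/
def StSub : Prop := ∀ (r s k : ℕ), 1 ≤ k →
  (∀ (t : ZMod (2 ^ s) → ZMod (2 ^ s)),
    (∀ (i : ℕ) (y y' : ZMod (2 ^ s)), (2 : ZMod (2 ^ s)) ^ i ∣ y - y' → (2 : ZMod (2 ^ s)) ^ i ∣ t y - t y') →
    ∀ (d : ℤ) (F : Fn (2 ^ r) (2 ^ s)), F ∈ Wd d →
      (fun x y => F x (y + 2 ^ k * t y) + F x y) ∈
        (Wd (d - (2 ^ k - 1)) : Submodule (ZMod 2) (Fn (2 ^ r) (2 ^ s))) ∧
      (k = 2 → (∀ y, (2 : ZMod (2 ^ s)) ∣ t y - 1) → (fun x y => F x (y + 4 * t y) + F x y) ∈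
        (Wd (d - 4) : Submodule (ZMod 2) (Fn (2 ^ r) (2 ^ s))))) ∧
  (∀ (t : ZMod (2 ^ r) → ZMod (2 ^ r)),
    (∀ (i : ℕ) (x x' : ZMod (2 ^ r)), (2 : ZMod (2 ^ r)) ^ i ∣ x - x' → (2 : ZMod (2 ^ r)) ^ i ∣ t x - t x') →
    ∀ (d : ℤ) (F : Fn (2 ^ r) (2 ^ s)), F ∈ Wd d →
      (fun x y => F (x + 2 ^ k * t x) y + F x y) ∈
        (Wd (d - (2 ^ k - 1)) : Submodule (ZMod 2) (Fn (2 ^ r) (2 ^ s))) ∧
      (k = 2 → (∀ x, (2 : ZMod (2 ^ r)) ∣ t x - 1) → (fun x y => F (x + 4 * t x) y + F x y) ∈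
        (Wd (d - 4) : Submodule (ZMod 2) (Fn (2 ^ r) (2 ^ s)))))

/-- GRP. Group laws of the operators. -/
def StGrp : Prop := ∀ (r s : ℕ),
  (∀ z w : ℤ, (opA z * opA w : Module.End (ZMod 2) (Fn (2 ^ r) (2 ^ s))) = opA (z + w)) ∧
  (∀ z w : ℤ, (opB z * opB w : Module.End (ZMod 2) (Fn (2 ^ r) (2 ^ s))) = opB (z + w)) ∧
  (opA 0 : Module.End (ZMod 2) (Fn (2 ^ r) (2 ^ s))) = 1 ∧
  (opB 0 : Module.End (ZMod 2) (Fn (2 ^ r) (2 ^ s))) = 1 ∧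
  (opC * opC' : Module.End (ZMod 2) (Fn (2 ^ r) (2 ^ s))) = 1 ∧
  (opC' * opC : Module.End (ZMod 2) (Fn (2 ^ r) (2 ^ s))) = 1

/-- LOWA. Lowering properties of the operators.
`tA z F (x,y) = F(x+z, y + 4 t(y))` with `t(y) = -z y²/(1+4zy)`, a shift in `x` by `z` (powers of
`1 + dx`; if `4 ∣ z` it is `(1 + dx^4)^(z/4)`) and a substitution with `k = 2`; if `4 ∣ z` the
substitution has `k = 4`. So `opA z + 1` lowers by `1`, by `4` if `4 ∣ z`; `opA 1 + 1 + dx` lowers by `3`.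
The same for `opB`. `opD l`, `l` odd: substitutions with `k = 1`. `opD l + opE l = opE l * (H + 1)` with
`H F(x,y) = F(x/l², l² y)`, substitutions with `k = 3` (`l² ≡ 1` modulo `8`), lowers by `7`.
Commutator: `p A B` and `p B A` have coordinates `(x+1)/(5+4x)` and `(1+5x)/(1+4x)`, which differ by
`4` times an odd function, similarly in `y`: lowers by `4`. -/
def StLowA : Prop := ∀ (r s : ℕ),
  (∀ z : ℤ, Low (opA z + 1 : Module.End (ZMod 2) (Fn (2 ^ r) (2 ^ s))) 1 ∧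
    Low (opB z + 1 : Module.End (ZMod 2) (Fn (2 ^ r) (2 ^ s))) 1 ∧
    Low (opA z : Module.End (ZMod 2) (Fn (2 ^ r) (2 ^ s))) 0 ∧
    Low (opB z : Module.End (ZMod 2) (Fn (2 ^ r) (2 ^ s))) 0 ∧
    (4 ∣ z → Low (opA z + 1 : Module.End (ZMod 2) (Fn (2 ^ r) (2 ^ s))) 4) ∧
    (4 ∣ z → Low (opB z + 1 : Module.End (ZMod 2) (Fn (2 ^ r) (2 ^ s))) 4)) ∧
  Low (opA 1 + 1 + dx : Module.End (ZMod 2) (Fn (2 ^ r) (2 ^ s))) 3 ∧
  Low (opB 1 + 1 + dy : Module.End (ZMod 2) (Fn (2 ^ r) (2 ^ s))) 3 ∧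
  Low (opA 1 * opB 1 + opB 1 * opA 1 : Module.End (ZMod 2) (Fn (2 ^ r) (2 ^ s))) 4 ∧
  (∀ l : ℕ, Odd l → Low (opD l + 1 : Module.End (ZMod 2) (Fn (2 ^ r) (2 ^ s))) 1 ∧
    Low (opE l + 1 : Module.End (ZMod 2) (Fn (2 ^ r) (2 ^ s))) 1 ∧
    Low (opD l + opE l : Module.End (ZMod 2) (Fn (2 ^ r) (2 ^ s))) 7)

/-- The formula for `T_3`. -/
def T3f (n1 n2 : ℤ) {q q' : ℕ} (F1 F3 : Fn q q') : Fn q q' :=
  opE 3 F1 + opD 3 (F1 + opA n1 (F1 + F3 + opC F3) + opA n2 (F1 + F3 + opC' (opC' F3)))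

/-- The formula for `T_5`. -/
def T5f (m1 m2 m3 m4 : ℤ) {q q' : ℕ} (F1 F3 : Fn q q') : Fn q q' :=
  opE 5 F1 + opD 5 (F1 + opA m1 (F1 + opB 1 F1 + opB 1 (opA 1 F1)) +
    opA m2 (F1 + opB (-1) F1 + opB (-1) (opA (-1) F1)) +
    opA m3 (F1 + F3 + opC (opC F3)) + opA m4 (F1 + F3 + opC' (opC' (opC' F3))))

/-- HK3. `T_3` on the plane: HKF with `J = {0, 1, -1}`. The path `2/3 → ∞` is `C{0,1}` and `{1,∞}`, the path
`-2/3 → ∞` is `A⁻¹` applied to `C⁻²{0,1}`, `{1,∞}` (`C 0 = 2/3`, `C⁻² 0 = 4/3`, `C` fixes `1`); the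
values on `g u {..}` for `g` of coordinates `p` are the plane functions at `p u` (EDG). The point
`((x-j)/3, 3y/(1-4jy))` is `(x/3, 3y) A^n` for `3 n ≡ -j`; `n2` combines `1/3` and `A⁻¹`. Values in
`ZMod 2`: signs do not matter. -/
def StHk3 : Prop := ∀ (r s : ℕ) (G : ℤ → ℤ → ZMod 2) (n1 n2 : ℤ) (F1 F3 F : Fn (2 ^ r) (2 ^ s)),
  Sym (r + 1) (s + 1) G → (2 : ℤ) ^ (r + s) ∣ 3 * n1 + 1 → (2 : ℤ) ^ (r + s) ∣ 3 * n2 + 2 →
  (∀ x y, F1 x y = edgeF 1 1 0 0 1 G x y) → (∀ x y, F3 x y = edgeF 1 1 1 0 1 G x y) →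
  (∀ x y, F x y = edgeF 1 1 0 0 1 (Tl 3 (2 ^ (r + 1)) G) x y) → F = T3f n1 n2 F1 F3

/-- HK5. `T_5` on the plane: HKF with `J = {0, 1, -1, 2, -2}`. Paths: `2/5 → 1/2 → 0 → ∞` is
`B A {0,∞}`, minus `B {0,∞}`, `{0,∞}`; `-2/5 → -1/2 → 0 → ∞` is `B⁻¹ A⁻¹ {0,∞}`, minus `B⁻¹ {0,∞}`,
`{0,∞}`; `4/5 → 1 → ∞` is `C² {0,1}`, `{1,∞}`; `-4/5 → ∞` is `A⁻¹` applied to `6/5 → 1 → ∞`,
`C⁻³ {0,1}`, `{1,∞}`. -/
def StHk5 : Prop := ∀ (r s : ℕ) (G : ℤ → ℤ → ZMod 2) (m1 m2 m3 m4 : ℤ)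
  (F1 F3 F : Fn (2 ^ r) (2 ^ s)),
  Sym (r + 1) (s + 1) G → (2 : ℤ) ^ (r + s) ∣ 5 * m1 + 1 → (2 : ℤ) ^ (r + s) ∣ 5 * m2 - 1 →
  (2 : ℤ) ^ (r + s) ∣ 5 * m3 + 2 → (2 : ℤ) ^ (r + s) ∣ 5 * m4 + 3 →
  (∀ x y, F1 x y = edgeF 1 1 0 0 1 G x y) → (∀ x y, F3 x y = edgeF 1 1 1 0 1 G x y) →
  (∀ x y, F x y = edgeF 1 1 0 0 1 (Tl 5 (2 ^ (r + 1)) G) x y) → F = T5f m1 m2 m3 m4 F1 F3

/-- LD3. Leading form of `T_3`. Write `A = opA 1`, `C = opC`, `C' = opC'`, `V = F1 + A F1`, `U = C V`.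
`Rel` says `F1 + A F1 = F3 + C' F3`, so `F3 + C F3 = C V = U`. Then
`T3f = (opE 3 + opD 3) F1 + opD 3 b`, `b = opA n1 F1 + opA n2 F1 + opA n1 U + opA n2 (F3 + C'² F3)`, and
`F3 + C'² F3 = C'² (1 + C)(F3 + C F3) = C'² (1 + C) U`. Modulo `Wd (d-4)` (as `n1 ≡ 1`, `n2 ≡ 2`
modulo 4): `b ≡ A V + A U + A² C'² (1+C) U = A (1 + C) V + A² C' (1+C) V = A (1 + A C') (1 + C) V`
(`C' C = 1`, `C` and `1 + C` commute). Here `V ∈ Wd (d-1)`, `(1+C) V ∈ Wd (d-2)`, `1 + A C'` equals `dy` up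
to lowering 2, `1 + C` equals `dx + dy` up to lowering 2, `V = dx F1` up to `Wd (d-3)`; so
`b ≡ dy (dx + dy) dx F1` modulo `Wd (d-4)`. `opD 3` does not change this and
`(opE 3 + opD 3) F1 ∈ Wd (d-7)`. -/
def StLd3 : Prop := ∀ (r s : ℕ) (n1 n2 d : ℤ) (F1 F3 : Fn (2 ^ r) (2 ^ s)), Rel F1 F3 →
  4 ∣ n1 - 1 → 4 ∣ n2 - 2 → F1 ∈ Wd d → T3f n1 n2 F1 F3 + L3 F1 ∈ Wd (d - 4)

/-- LD5. Leading form of `T_5`; notation of LD3, `B = opB 1`, `B' = opB (-1)`, `A' = opA (-1)`.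
`T5f = (opE 5 + opD 5) F1 + opD 5 b`, where `b` is the sum of
`opA m1 F1 + opA m2 F1 + opA m3 F1 + opA m4 F1`, `opA m1 B V`, `opA m2 B' A' V`
(as `F1 + A' F1 = A' V`), `opA m3 (F3 + C² F3) = opA m3 (1 + C) C V`, and
`opA m4 (F3 + C'³ F3) = opA m4 (C'² + C' + 1) V` (as `F3 + C'³F3 = C'³ (1 + C + C²)(F3 + C F3)`).
Modulo 8 the exponents are `m1 ≡ 3, m2 ≡ 5, m3 ≡ 6, m4 ≡ 1`, and `opA z` for `4 ∣ z` is `1` up to
lowering 4: the first sum is `(A³ + A^5 + A^6 + A) F1 = (A(1+A) + A^5) V ≡ A² V` modulo `Wd (d-5)`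
(the exponents are only known modulo 8: `opA 8` is `1` up to lowering 8, use `opA 4 + 1` twice or the
`4 ∣ z` statement on `V`; it is enough that `m1+m3`-type differences are handled as
`opA m1 F1 + opA m4 F1 = opA m4 (1 + opA (m1 - m4)) F1`, `m1 - m4 ≡ 2`, `opA m2 F1 + opA m3 F1` similarly with
`m3 - m2 ≡ 1` modulo 8, and `(1 + opA z) F1 = (1 + A + ... ) V`).
So `b ≡ Q V` modulo `Wd (d-5)`, `Q = A² + A³ B + A B' A' + A² (C² + C) + A (C'² + C' + 1)`. Up to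
lowering 4 the operators `A`, `B` commute, `A⁴ = B⁴ = 1`, `C = B A³`, so
`Q ≡ A² + A³B + B³ + B² + AB + A³B² + A²B³ + A`, which with `A = 1 + Y`, `B = 1 + Z` is
`Y Z² + Y³ Z + Y² Z³ + Y³ Z²`, so `Q ≡ Y Z² ≡ dx dy²` up to lowering 4, and `Q V ≡ dx dy² dx F1` modulo
`Wd (d-5)`. -/
def StLd5 : Prop := ∀ (r s : ℕ) (m1 m2 m3 m4 d : ℤ) (F1 F3 : Fn (2 ^ r) (2 ^ s)), Rel F1 F3 →
  8 ∣ m1 - 3 → 8 ∣ m2 - 5 → 8 ∣ m3 - 6 → 8 ∣ m4 - 1 → F1 ∈ Wd d →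
  T5f m1 m2 m3 m4 F1 F3 + L5 F1 ∈ Wd (d - 5)

/-- The product of binomial coefficients `(x choose i)(y choose j)` modulo 2. -/
def bb (i j : ℕ) {q q' : ℕ} : Fn q q' := fun x y => ((x.val.choose i * y.val.choose j : ℕ) : ZMod 2)

/-- BB. Binomial basis: for `i < 2^r`, `j < 2^s`: `bb i j ∈ Wd (i+j)`, `dx (bb (i+1) j) = bb i j` (`i + 1 < 2^r`),
`dx (bb 0 j) = 0`, the same for `dy`; and the Newton expansion
`F = ∑_{i<2^r, j<2^s} ((dx^i dy^j F) 0 0) bb i j`. (Pascal; wrap around `x = 2^r - 1`: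
`(2^r choose i) = 0` modulo 2 for `0 < i < 2^r`.) -/
def StBb : Prop := ∀ (r s : ℕ),
  (∀ i j : ℕ, i < 2 ^ r → j < 2 ^ s →
    (bb i j : Fn (2 ^ r) (2 ^ s)) ∈ Wd ((i : ℤ) + j)) ∧
  (∀ i j : ℕ, i + 1 < 2 ^ r → j < 2 ^ s → dx (bb (i + 1) j : Fn (2 ^ r) (2 ^ s)) = bb i j) ∧
  (∀ i j : ℕ, i < 2 ^ r → j + 1 < 2 ^ s → dy (bb i (j + 1) : Fn (2 ^ r) (2 ^ s)) = bb i j) ∧
  (∀ j : ℕ, j < 2 ^ s → dx (bb 0 j : Fn (2 ^ r) (2 ^ s)) = 0) ∧
  (∀ i : ℕ, i < 2 ^ r → dy (bb i 0 : Fn (2 ^ r) (2 ^ s)) = 0) ∧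
  (∀ F : Fn (2 ^ r) (2 ^ s), F = ∑ i ∈ Finset.range (2 ^ r), ∑ j ∈ Finset.range (2 ^ s),
    (((dx ^ i * dy ^ j : Module.End (ZMod 2) (Fn (2 ^ r) (2 ^ s))) F) 0 0) • bb i j)

/-- SUR. Solving the inhomogeneous relation below the top degree. Proof: (a) every `E ∈ Wd e` with
`e < 2^r + 2^s - 2` is `dx U + dy V` with `U, V ∈ Wd (e+1)`: by BB `E` is a combination of `bb i j`,
`i + j ≤ e`, and `bb i j = dx (bb (i+1) j)` or `dy (bb i (j+1))`. (b) `H1 = U + V`, `H3 = V`: the operator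
`(opA 1 + 1) H1 + (opC' + 1) H3` equals `dx H1 + (dx + dy) H3 = dx U + dy V` up to lowering 2 (LOWA:
`opA 1 + 1 + dx` lowers by 3, `opC' + 1 + dx + dy` by 2), so the error is in `Wd (e-1)`; induction on `e`
(downwards until `Wd (-1) = 0`). -/
def StSur : Prop := ∀ (r s : ℕ) (e : ℤ) (E : Fn (2 ^ r) (2 ^ s)), e < 2 ^ r + 2 ^ s - 2 → E ∈ Wd e →
  ∃ H1 H3 : Fn (2 ^ r) (2 ^ s), H1 ∈ Wd (e + 1) ∧ H3 ∈ Wd (e + 1) ∧
    opA 1 H1 + H1 + (opC' H3 + H3) = E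

/-- LED. Solutions with given leading form. Start with `F1⁰ = bb (al-1) be + bb al (be-1)`,
`F3⁰ = bb (al-1) be` (second term of `F1⁰` absent if `be = 0`): `dx F1⁰ + (dx + dy) F3⁰ = 0`, so the
error of the relation has degree at most `al + be - 3 < 2^r + 2^s - 2`: correct by SUR with functions of
degree at most `al + be - 2`. -/
def StLed : Prop := ∀ (r s al be : ℕ), 1 ≤ al → al < 2 ^ r → be < 2 ^ s →
  ∃ F1 F3 : Fn (2 ^ r) (2 ^ s), Rel F1 F3 ∧ F1 ∈ Wd ((al : ℤ) + be - 1) ∧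
    F1 + (bb (al - 1) be + if be = 0 then 0 else bb al (be - 1)) ∈ Wd ((al : ℤ) + be - 2)

/-- ITR. Iteration. For a symbol `G` modulo 2 of level `(r+1, s+1)`, `r + s ≥ 3`, with `F1 ∈ Wd d` (`d ≥ 0`):
`ev G i j = 0` if `3i + 4j > d`, and `ev G i j = (L3^i L5^j F1) 0 0` if `3i + 4j = d`. Proof: by HK3, LD3, REL:
if `F1(G) ≡ H` modulo `Wd (e-1)` and `F1(G) ∈ Wd e` then `F1(T_3 G) ≡ L3 H` modulo `Wd (e-4)`, in `Wd (e-3)`
(choose `n1`, `n2` with `2^(r+s) ∣ 3 n1 + 1`; then `4 ∣ n1 - 1` etc., as `r + s ≥ 3`), and the same for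
`T_5`; `T_l` preserves symbols (HKB). `ev G i j` is the value at `(0,0)` of `F1` of the iterate (standard
matrix `1`). -/
def StItr : Prop := ∀ (r s : ℕ) (G : ℤ → ℤ → ZMod 2) (F1 : Fn (2 ^ r) (2 ^ s)) (d : ℕ), 3 ≤ r + s →
  Sym (r + 1) (s + 1) G → (∀ x y, F1 x y = edgeF 1 1 0 0 1 G x y) → F1 ∈ Wd (d : ℤ) → ∀ i j : ℕ,
  (d < 3 * i + 4 * j → ev (2 ^ (r + 1)) G i j = 0) ∧
  (3 * i + 4 * j = d → ev (2 ^ (r + 1)) G i j =
    ((L3 ^ i * L5 ^ j : Module.End (ZMod 2) (Fn (2 ^ r) (2 ^ s))) F1) 0 0)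

/-- TRI. Triangular system of symbols modulo 2. For `k = (i', j')` with `2i' + 2j' + 1 < 2^r`,
`i' + 2j' < 2^s` there is a symbol `G` (LED with `al = 2i'+2j'+1`, `be = i'+2j'`, EX) with `ev G i' j' = 1`, and
`ev G i j ≠ 0` only if `3i + 4j < 3i' + 4j'`, or `3i + 4j = 3i' + 4j'` and `i + 2j ≤ i' + 2j'`. Proof: ITR with
`d = 3i' + 4j'`. If `3i + 4j = d` then `L3^i L5^j = (dx dy)^m (dx + dy)^i`, `m = i + 2j`, applied to
`bb (al-1) be + bb al (be-1)` (lower degree terms are killed) at `(0,0)`: the coefficient is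
`(i choose be - m) + (i choose be - 1 - m)`, zero if `m > be`, one if `m = be`. -/
def StTri : Prop := ∀ (r s i' j' : ℕ), 3 ≤ r + s → 2 * i' + 2 * j' + 1 < 2 ^ r → i' + 2 * j' < 2 ^ s →
  ∃ G : ℤ → ℤ → ZMod 2, Sym (r + 1) (s + 1) G ∧ ev (2 ^ (r + 1)) G i' j' = 1 ∧
    ∀ i j : ℕ, ev (2 ^ (r + 1)) G i j ≠ 0 →
      (3 * i + 4 * j < 3 * i' + 4 * j' ∨ (3 * i + 4 * j = 3 * i' + 4 * j' ∧ i + 2 * j ≤ i' + 2 * j'))

/-- LIFP. Lifting solutions of the relation to integers. Take any lifts; the defect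
`E(p) = F1(pA) - F1(p) - F3(pC⁻¹) + F3(p)` is even and has total sum zero over the plane (`p ↦ pA`,
`p ↦ pC⁻¹` are bijections); `E/2` has total sum zero, and every integral function with sum zero is of the
form `H1(pA) - H1(p) - H3(pC⁻¹) + H3(p)`, because `δ_p - δ_{pA}` and `δ_p - δ_{pC⁻¹}` generate all
`δ_p - δ_{p'}`: the plane is connected under `A`, `C` (`(x,y) A^{-x} = (0, y')`, `(0,y') B^{-y'} = (0,0)`,
`B = C A`). Subtract `2 H`. -/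
def StLifp : Prop := ∀ (r s : ℕ) (f1 f3 : Fn (2 ^ r) (2 ^ s)), Rel f1 f3 →
  ∃ F1 F3 : ZMod (2 ^ r) → ZMod (2 ^ s) → ℤ, Rel F1 F3 ∧
    (∀ x y, ((F1 x y : ℤ) : ZMod 2) = f1 x y) ∧ (∀ x y, ((F3 x y : ℤ) : ZMod 2) = f3 x y)

/-- LIF. Lifting symbols: every symbol `g` modulo 2 lifts to an integral symbol `G` with the same
`ev` modulo 2. Proof: REL, LIFP, EX over `ℤ`; the reduction of `G` is a symbol with the same `F1`, `F3` as
`g`, so by UNI it equals `g` up to a constant; `ev` commutes with reduction. -/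
def StLif : Prop := ∀ (r s : ℕ) (g : ℤ → ℤ → ZMod 2), Sym (r + 1) (s + 1) g →
  ∃ G : ℤ → ℤ → ℤ, Sym (r + 1) (s + 1) G ∧
    ∀ i j : ℕ, ((ev (2 ^ (r + 1)) G i j : ℤ) : ZMod 2) = ev (2 ^ (r + 1)) g i j

/-- UNB. Back to `Γ₀(2^n)` and to complex values: if `G` is an integral symbol of level `(r, s)` then
`G0(p,q) = G(2^r p, q)` (as complex numbers) is a symbol of level `(0, r+s)` with `ev 1 G0 = ev (2^r) G`. -/
def StUnb : Prop := ∀ (r s : ℕ) (G : ℤ → ℤ → ℤ), Sym r s G →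
  Sym 0 (r + s) (fun p q => ((G (2 ^ r * p) q : ℤ) : ℂ)) ∧
    ∀ i j : ℕ, ev 1 (fun p q => ((G (2 ^ r * p) q : ℤ) : ℂ)) i j = ((ev (2 ^ r) G i j : ℤ) : ℂ)

/-- CNT. Counting the index set. -/
def StCnt : Prop :=
  (∀ k : ℕ, 3 ≤ k → ((Finset.range (2 ^ k) ×ˢ Finset.range (2 ^ k)).filter fun t : ℕ × ℕ =>
    2 * t.1 + 2 * t.2 + 1 < 2 ^ (k - 1) ∧ t.1 + 2 * t.2 < 2 ^ (k - 1)).card = DD (2 * k)) ∧
  (∀ k : ℕ, 2 ≤ k → ((Finset.range (2 ^ (k + 1)) ×ˢ Finset.range (2 ^ (k + 1))).filter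
    fun t : ℕ × ℕ => 2 * t.1 + 2 * t.2 + 1 < 2 ^ k ∧ t.1 + 2 * t.2 < 2 ^ (k - 1)).card =
    DD (2 * k + 1))

/-- LB from TRI, LIF, UNB, CNT. For `n = 2k` use `(r,s) = (k-1,k-1)`, for `n = 2k+1` use
`(r,s) = (k,k-1)`: level `(r+1, s+1)`, `r + s ≥ 3` for `n ≥ 5`. The matrix
`M (k,(i,j)) = ev G_k i j` (`k`, `(i,j)` in the index set of CNT) is integral, and modulo 2 its rows are
linearly independent: in a relation `∑ c_k M(k,·) = 0` take `k0` maximal with `c_{k0} ≠ 0` for the order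
(`3i+4j`, then `i+2j`), which determines `(i,j)`; the column `k0` gives `c_{k0} = 0`. So its determinant is
odd, nonzero in `ℂ`, and the vectors `evL (G_k)` are independent. -/
def StLBof : Prop := StTri → StLif → StUnb → StCnt → StLB

end Pool.Agent.Helper14.CV
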