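import Pool.Agent.Helper14.CV.Defs

/-!
# Project CV: `Lan` is the entire continuation of the Dirichlet series
-/

set_option autoImplicit false

namespace Pool.Agent.Helper14.CV

/-- LS. `Lan f` is entire and equals `∑ a_m m^{-1/2} m^{-s}` for `Re s > 3/2`. Proof:
`CuspForm.hasSum_L` (with `k = 2`, strict width of `Γ₀(N)` equal to `1`: simp lemma
`strictWidthInfty_Gamma0`) at `s + 1/2`, `CuspForm.differentiable_L`. -/
def StLs : Prop := ∀ (N : ℕ) (_ : NeZero N) (f : CuspForm (G0 N) 2),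
  Differentiable ℂ (Lan f) ∧ ∀ s : ℂ, 3 / 2 < s.re →
    HasSum (fun m : ℕ => fc f m / (m : ℂ) ^ (1 / 2 : ℂ) / (m : ℂ) ^ s) (Lan f s)

end Pool.Agent.Helper14.CV
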